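import Pool.Agent.Lib.DR.CV.Rp

/-!
# Theorem DR, part CV, module C10: `S_C10` (author helper28, port of helper97)
-/

set_option autoImplicit false

open scoped Pointwise nonZeroDivisors

noncomputable section

namespace Pool.Agent.DR

open Pool.Agent.MuZ Pool.Agent.FW NumberField IsDedekindDomain Pool.Agent.DN
open Pool.Agent.DI (io ofC io_inj exists_io io_ofC ofC_io VP MP UP TP ex sqr sqr_sq kap)

variable {n t : ℕ}

/-- The sum `E_b(r)` as a sum over the first system. -/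
theorem C10_E [Rmf n t] (hC4 : S_C4) (hC6 : S_C6) {f : ℕ} {m b : Ideal (OO n t)} (hm : FM f m)
    (hb : FB f b) {c : ℤ} {n' N q : ℕ} (h : Md f (NI m) n' N q) (hqm : q.Coprime (NI m)) (hbq : PrI b q)
    {lf : OO n t → OO n t} (h1 : ∀ α, ((2 * f : ℕ) : OO n t) ∣ lf α - α)
    (h2 : ∀ α, ((n' * NI m : ℕ) : OO n t) ∣ lf α - 1) {r : ℚ} (hr : r / 4 = c / q) :
    etE f m b r = (1 / q : Om) *
      ∑ p ∈ tm2 n t f ×ˢ (Finset.range q ×ˢ Finset.range q),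
        pt m b c q (f * (n' * 2 ^ N)) (lf p.1 * ga (2 * f) p.2.1 p.2.2) := by
  obtain ⟨hf0, hf15, hm15, hm2f, hmo, hmc, hm0⟩ := CV_fm hm
  obtain ⟨hbG, hb2, hbf, hmb⟩ := CV_fb hm hb
  obtain ⟨hc, hrp⟩ := rp1 h h1 h2
  have hq : 0 < q := by
    have h3 := h.q0
    have h4 : 0 < n' * 2 ^ N := Nat.mul_pos h.n1.pos (by positivity)
    omega
  have hF : f * (n' * 2 ^ N) = 2 * f * q := by rw [← h.q0]; ring
  unfold etE
  rw [Finset.sum_product, Finset.mul_sum]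
  refine Finset.sum_congr rfl fun α hα => ?_
  obtain ⟨hα1, hα2⟩ := w_tm h.f1 hα
  have hαc : Cop α (2 * f) := CV_cop_mul.2 ⟨hα2, CV_cop_of_dvd hα1⟩
  have hlc := hc α hα
  have hl2f : Cop (lf α) (2 * f) := cop_dvd hlc (Dvd.intro _ rfl)
  have hl2 : Cop (lf α) 2 := cop_dvd hl2f (Dvd.intro _ rfl)
  have hlq : Cop (lf α) q := cop_dvd hlc (Dvd.intro_left _ rfl)
  have hα0 : α ≠ 0 := CV_ne_of_cop (by omega) hα2
  have hl0 : lf α ≠ 0 := CV_ne_of_cop (by omega) hl2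
  have h2f0 : 0 < 2 * f := by omega
  have h7 := aO7 n t (2 * f) h2f0
  have hray : Ray (2 * f) (sp α) (sp (lf α)) := by
    refine (h7.2.2.2.2.2.2.2.1 α (lf α) hα0 hl0 hαc hl2f).2 ⟨1, Nm_one, ?_⟩
    rw [one_mul]
    have h3 := dvd_neg.2 (h1 α)
    rwa [neg_sub] at h3
  have hray' : Ray (2 * f) (sp α * b) (sp (lf α) * b) :=
    h7.2.2.2.1 _ _ b b hray (h7.1 b)
  have hF1 : FB f (sp α * b) := CV_fb_mul (CV_fb_sp hf0 hαc) hb
  have hF2 : FB f (sp (lf α) * b) := CV_fb_mul (CV_fb_sp hf0 hl2f) hb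
  have hlbq : PrI (sp (lf α) * b) q := CV_pri_mul (CV_pri_sp hq hlq) hbq
  rw [((hC6 n t f m _ hm hF1).1 _ hF2 hray').2 (r / 4), hr, (hC4 n t f m _ hm hF2 c q hq hqm).2.2 hlbq,
    Finset.sum_product]
  refine congrArg (fun X : Om => 1 / (q : Om) * X) ?_
  refine Finset.sum_congr rfl fun x _ => Finset.sum_congr rfl fun y _ => ?_
  have e1 : (⟨1 + 2 * f * x, 2 * f * y⟩ : OO n t) = ga (2 * f) x y := by
    apply ext'
    · change 1 + 2 * (f : ℤ) * x = 1 + ((2 * f : ℕ) : ℤ) * x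
      push_cast
      ring
    · change 2 * (f : ℤ) * y = ((2 * f : ℕ) : ℤ) * y
      push_cast
      ring
  have h15 : (15 : OO n t) ∣ lf α - 1 := by
    have h3 := CV_cast_dvd (Dvd.intro_left _ rfl : f ∣ 2 * f) (h1 α)
    have h4 := dvd_add h3 hα1
    rw [sub_add_sub_cancel] at h4
    have h5 := CV_cast_dvd hm.dvd h4
    have e4 : (((15 : ℕ) : OO n t)) = 15 := by norm_num
    rwa [e4] at h5
  have e5 : gO m (sp (lf α) * b) (toC (ga (2 * f) x y : OO n t) / ((2 * f * q : ℕ) : ℂ)) =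
      gO m b (toC (lf α * ga (2 * f) x y) / ((f * (n' * 2 ^ N) : ℕ) : ℂ)) := by
    rw [gO_hom hm.ne hbG hl0 h15, toC_mul, hF]
    congr 1
    ring
  have e6 : zet q ^ (c * (NI m * NI (sp (lf α) * b) * Nm (ga (2 * f) x y : OO n t))) =
      zet q ^ (c * (NI m * NI b * Nm (lf α * ga (2 * f) x y))) := by
    congr 1
    rw [CV_NI_mul, Nm_mul]
    push_cast
    rw [CV_NI_sp]
    ring
  unfold pt
  rw [e1, e5, e6]

/-- The value `η_b(r)` as a sum. -/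
theorem C10_eta [Rmf n t] (hC4 : S_C4) {f : ℕ} {m b : Ideal (OO n t)} (hm : FM f m)
    (hb : FB f b) {c : ℤ} {n' N q : ℕ} (h : Md f (NI m) n' N q) (hqm : q.Coprime (NI m)) (hbq : PrI b q)
    {r : ℚ} (hr : r = c / q) :
    etaM (2 * f) m b r = (1 / q : Om) *
      ∑ p ∈ Finset.range 1 ×ˢ (Finset.range q ×ˢ Finset.range q),
        pt m b c q (f * (n' * 2 ^ N)) (1 * ga (2 * f) p.2.1 p.2.2) := by
  have hq : 0 < q := by
    have h3 := h.q0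
    have h4 : 0 < n' * 2 ^ N := Nat.mul_pos h.n1.pos (by positivity)
    omega
  have hF : f * (n' * 2 ^ N) = 2 * f * q := by rw [← h.q0]; ring
  rw [hr, (hC4 n t f m b hm hb c q hq hqm).2.2 hbq, Finset.sum_product, Finset.sum_range_one,
    Finset.sum_product]
  refine congrArg (fun X : Om => 1 / (q : Om) * X) ?_
  refine Finset.sum_congr rfl fun x _ => Finset.sum_congr rfl fun y _ => ?_
  have e1 : (⟨1 + 2 * f * x, 2 * f * y⟩ : OO n t) = ga (2 * f) x y := by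
    apply ext'
    · change 1 + 2 * (f : ℤ) * x = 1 + ((2 * f : ℕ) : ℤ) * x
      push_cast
      ring
    · change 2 * (f : ℤ) * y = ((2 * f : ℕ) : ℤ) * y
      push_cast
      ring
  unfold pt
  rw [one_mul, hF, e1]

/-- The sums over one orbit. -/
theorem C10_orb [Rmf n t] (hT1 : S_T1) (hT2 : S_T2) (hE6 : S_E6) (hE10 : S_E10) (hD9 : S_D9)
    {P : Ideal ZZ} (hP : Ab2 P) {f : ℕ} {m b : Ideal (OO n t)} (hm : FM f m) (hb : FB f b) (c : ℤ)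
    {n' N q : ℕ} (h : Md f (NI m) n' N q) (hq : 0 < q) (hqF : q ∣ n' * 2 ^ N) {A : Finset (OO n t)}
    (hA : IsG (f * n' * NI m) N A) {v : OO n t} (hv : (f : OO n t) ∣ v - 1) :
    VP P ((∑ α ∈ A, pt m b c q (f * (n' * 2 ^ N)) (α * v)) / toO (pO n t) ^ (2 * N - 1)) ∧
      ∀ A1 : Finset (OO n t), (∀ α : OO n t, α ∈ A1 ↔ α ∈ A ∧ (2 : OO n t) ∣ α - 1) →
        VP P ((∑ α ∈ A1, pt m b c q (f * (n' * 2 ^ N)) (α * v)) / 2 ^ (N - 1)) := by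
  have hoF : Odd (f * n' * NI m) := (h.f1.mul h.n1).mul h.m1
  have h15 : 15 ∣ f * n' * NI m := dvd_trans hm.dvd ⟨n' * NI m, by ring⟩
  have hex : ∀ α : OO n t, ∃ σ : Gal(Om/ℚ), α ∈ A →
      σ ∈ P.inertia Gal(Om/ℚ) ∧ σ ∈ GK n t ∧ Psi σ (f * n' * NI m * 2 ^ N) (sp α) := by
    intro α
    by_cases hα : α ∈ A
    · obtain ⟨h1, h2⟩ := hA.mem α hα
      obtain ⟨σ, h3, h4⟩ := (hT1 n t P hP _ N hoF h15).2 α h1 h2
      exact ⟨σ, fun _ => ⟨h3, h4⟩⟩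
    · exact ⟨1, fun h1 => absurd h1 hα⟩
  choose s hs using hex
  have he : 0 < n' * 2 ^ N := Nat.mul_pos h.n1.pos (by positivity)
  have hF1 : f * (n' * 2 ^ N) ∣ f * n' * NI m * 2 ^ N := ⟨NI m, by ring⟩
  have hF2 : q ∣ f * n' * NI m * 2 ^ N := dvd_trans hqF ⟨f * NI m, by ring⟩
  have hF3 : NI m ∣ f * n' * NI m * 2 ^ N := ⟨f * n' * 2 ^ N, by ring⟩
  have hF4 : f ∣ f * n' * NI m := ⟨n' * NI m, by ring⟩
  have key : ∀ α ∈ A, pt m b c q (f * (n' * 2 ^ N)) (α * v) = s α (pt m b c q (f * (n' * 2 ^ N)) v) := by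
    intro α hα
    obtain ⟨h1, h2⟩ := hA.mem α hα
    obtain ⟨h3, h4, h5⟩ := hs α hα
    exact (pt_gal hE6 hE10 hm hb c he hq hoF hF4 hF2 hF3 hF1 h4 h1 h2 h5 hv).symm
  have h6 := hT2 n t P hP (f * n' * NI m) N A s hoF h15 h.N1 hA (fun α hα => hs α hα)
    (pt m b c q (f * (n' * 2 ^ N)) v) (by
      intro σ _ hσK hpsi
      rw [← CV_sp_one] at hpsi
      have h5 := pt_gal hE6 hE10 hm hb c he hq hoF hF4 hF2 hF3 hF1 hσK (α := 1)
        (by rw [sub_self]; exact dvd_zero _) (cop_one 2) hpsi hv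
      rwa [one_mul] at h5) (pt_vp hD9 hP hm hb c hq h.n1 hv)
  refine ⟨?_, fun A1 hA1 => ?_⟩
  · rw [Finset.sum_congr rfl key]
    exact h6.1
  · rw [Finset.sum_congr rfl fun α hα => key α ((hA1 α).1 hα).1]
    exact h6.2 A1 hA1

/-- Inertia. -/
theorem C10_fix [Rmf n t] (hT1 : S_T1) (hE6 : S_E6) (hE10 : S_E10)
    {P : Ideal ZZ} (hP : Ab2 P) {f : ℕ} {m b : Ideal (OO n t)} (hm : FM f m) (hb : FB f b)
    {c : ℤ} {n' N q : ℕ} (h : Md f (NI m) n' N q) (hq : 0 < q) (hqF : q ∣ n' * 2 ^ N)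
    (h2F : 2 ∣ f * (n' * 2 ^ N)) {ι : Type} {I : Finset ι} {g : ι → OO n t}
    (hrp1 : RpI (fun v : OO n t => (f : OO n t) ∣ v - 1 ∧ Cop v 2) (f * (n' * 2 ^ N)) I g)
    (hper : ∀ v u : OO n t, ((f : OO n t) ∣ v - 1 ∧ Cop v 2) → ((f : OO n t) ∣ u - 1 ∧ Cop u 2) →
      ((f * (n' * 2 ^ N) : ℕ) : OO n t) ∣ v - u →
      pt m b c q (f * (n' * 2 ^ N)) v = pt m b c q (f * (n' * 2 ^ N)) u)
    {σ : Gal(Om/ℚ)} (hσ : σ ∈ P.inertia Gal(Om/ℚ)) (hσK : σ ∈ GK n t) {x : Om}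
    (hE : x = (1 / q : Om) * ∑ p ∈ I, pt m b c q (f * (n' * 2 ^ N)) (g p)) : σ x = x := by
  have hN0 : 0 < 2 ^ N := by positivity
  have hoF : Odd (f * n' * NI m) := (h.f1.mul h.n1).mul h.m1
  have h15 : 15 ∣ f * n' * NI m := dvd_trans hm.dvd ⟨n' * NI m, by ring⟩
  obtain ⟨α, hα1, hα2, hpsi⟩ := (hT1 n t P hP (f * n' * NI m) N hoF h15).1 σ hσ hσK
  have hα3 : (f : OO n t) ∣ α - 1 := CV_cast_dvd ⟨n' * NI m, by ring⟩ hα1
  have hαF : Cop α (f * (n' * 2 ^ N)) := by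
    refine CV_cop_mul.2 ⟨CV_cop_of_dvd hα3, CV_cop_mul.2 ⟨CV_cop_of_dvd (CV_cast_dvd ⟨f * NI m, by ring⟩ hα1), ?_⟩⟩
    unfold Cop at hα2 ⊢
    push_cast
    exact hα2.pow_right
  obtain ⟨β, hβ, hαβ⟩ := cop_inv hαF
  have hβ2 : Cop β 2 := cop_dvd hβ h2F
  have hβ1 : (f : OO n t) ∣ β - 1 := by
    have h3 := CV_cast_dvd (Dvd.intro _ rfl : f ∣ f * (n' * 2 ^ N)) hαβ
    have e : β - 1 = (α * β - 1) - β * (α - 1) := by ring
    rw [e]
    exact dvd_sub h3 (dvd_mul_of_dvd_right hα3 _)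
  have hQ : ∀ {a : OO n t}, (f : OO n t) ∣ a - 1 → Cop a 2 → ∀ v : OO n t,
      ((f : OO n t) ∣ v - 1 ∧ Cop v 2) → ((f : OO n t) ∣ a * v - 1 ∧ Cop (a * v) 2) := by
    rintro a ha1 ha2 v ⟨hv1, hv2⟩
    refine ⟨?_, cop_mul ha2 hv2⟩
    have e : a * v - 1 = a * (v - 1) + (a - 1) := by ring
    rw [e]
    exact dvd_add (dvd_mul_of_dvd_right hv1 _) ha1
  have hrp3 := hrp1.mul hαF hαβ (hQ hα3 hα2) (hQ hβ1 hβ2)
  have e1 := RpI.sum hrp3 hrp1 (pt m b c q (f * (n' * 2 ^ N))) hper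
  have hn0 := h.n1.pos
  rw [hE, map_mul, map_div₀, map_one, map_natCast, map_sum, ← e1]
  refine congrArg (fun X : Om => 1 / (q : Om) * X) (Finset.sum_congr rfl fun p hp => ?_)
  have hv := hrp1.mem p hp
  exact pt_gal hE6 hE10 hm hb c (Nat.mul_pos hn0 hN0) hq hoF ⟨n' * NI m, by ring⟩
    (dvd_trans hqF ⟨f * NI m, by ring⟩) ⟨f * n' * 2 ^ N, by ring⟩ ⟨NI m, by ring⟩ hσK hα1 hα2 hpsi hv.1

/-- The ideals. -/
theorem C10_cop [SqN n t] {f M : ℕ} {m b : Ideal (OO n t)} (hm : FM f m) (hb : FB f b)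
    (hM : IsLv f m {b} M) {r : ℚ} (hr : r.den.Coprime M) (j : ℕ) :
    (2 ^ j * r.den).Coprime (NI m) ∧ PrI b (2 ^ j * r.den) := by
  obtain ⟨hf0, hf15, hm15, hm2f, hmo, hmc, hm0⟩ := CV_fm hm
  obtain ⟨hbG, hb2, hbf, hmb⟩ := CV_fb hm hb
  obtain ⟨hfM, hmM, -, hbM⟩ := w_lvd hM
  have hbM' := hbM b (Finset.mem_singleton_self b)
  have hden0 : 0 < r.den := r.den_pos
  constructor
  · refine Nat.Coprime.mul_left (Nat.Coprime.pow_left _ (Nat.coprime_two_left.2 hmo)) ?_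
    exact Nat.Coprime.coprime_dvd_right hmM hr
  · rw [CV_NI_cop (Nat.mul_pos (by positivity) hden0)]
    refine Nat.Coprime.mul_right (Nat.Coprime.pow_right _ ?_) (Nat.Coprime.coprime_dvd_right hbM' hr).symm
    exact (CV_NI_cop (by norm_num)).1 hb2

/-- **`S_C10`.** -/
theorem sC10 (hT0 : S_T0) (hT1 : S_T1) (hT2 : S_T2) (hC4 : S_C4) (hC6 : S_C6) (hD9 : S_D9) (hE6 : S_E6)
    (hE10 : S_E10) : S_C10 := by
  intro n t _ f M m b hm hb hM P hP r hr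
  have hPp := hP.1.1
  obtain ⟨hf0, hf15, hm15, hm2f, hmo, hmc, hm0⟩ := CV_fm hm
  obtain ⟨hbG, hb2, hbf, hmb⟩ := CV_fb hm hb
  obtain ⟨hfM, hmM, -, hbM⟩ := w_lvd hM
  obtain ⟨hp1, hp2, hp0⟩ := w_pO (n := n) (t := t) hT0 hP
  obtain ⟨s, n', hn', hden⟩ := Nat.exists_eq_two_pow_mul_odd r.den_nz
  have hn'0 : 0 < n' := hn'.pos
  have hden0 : 0 < r.den := r.den_pos
  have hn'M : n'.Coprime M := Nat.Coprime.coprime_dvd_left ⟨2 ^ s, by rw [hden]; ring⟩ hr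
  have hn'f : n'.Coprime f := Nat.Coprime.coprime_dvd_right hfM hn'M
  have hmf : (NI m).Coprime f := Nat.Coprime.coprime_dvd_right (Dvd.intro_left _ rfl) hmc
  have hnO : (n' : Om) ≠ 0 := by exact_mod_cast hn'0.ne'
  have hnu := (CV_up_oddN hPp hP.2 hn').inv.1
  have hrr : (r.num : ℚ) / (r.den : ℚ) = r := Rat.num_div_den r
  -- the sums `E`
  obtain ⟨q, hq⟩ : ∃ q : ℕ, q = 2 ^ 2 * r.den := ⟨_, rfl⟩
  have hq0 : 0 < q := by omega
  have hq2 : 2 * q = n' * 2 ^ (s + 3) := by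
    rw [hq, hden]
    ring
  have hqn : q = n' * 2 ^ (s + 2) := by
    have e : n' * 2 ^ (s + 3) = 2 * (n' * 2 ^ (s + 2)) := by ring
    rw [e] at hq2
    omega
  have h : Md f (NI m) n' (s + 3) q := ⟨hm.odd, by omega, hmo, hn', hn'f, hmf, by omega, hq2⟩
  have hqF : q ∣ n' * 2 ^ (s + 3) := ⟨2, by rw [← hq2]; ring⟩
  obtain ⟨hqm, hbq⟩ := C10_cop hm hb hM hr 2
  rw [← hq] at hqm hbq
  have hcop : (2 * f).Coprime (n' * NI m) := by
    refine Nat.Coprime.mul_left ?_ (Nat.Coprime.mul_right hn'f.symm hmf.symm)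
    exact Nat.coprime_two_left.2 (hn'.mul hmo)
  have hex : ∀ α : OO n t, ∃ u : OO n t, ((2 * f : ℕ) : OO n t) ∣ u - α ∧
      ((n' * NI m : ℕ) : OO n t) ∣ u - 1 := by
    intro α
    obtain ⟨u, -, h1, h2⟩ := (aO11 n t).2.2.2.2.2 (2 * f) (n' * NI m) α 1 (by omega)
      (Nat.mul_pos hn'0 hm0) hcop
    exact ⟨u, h1, h2⟩
  choose lf hl1 hl2 using hex
  have hrc : r / 4 = (r.num : ℚ) / (q : ℕ) := by
    rw [hq]
    push_cast
    rw [mul_comm, ← div_div, hrr]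
  have hE := C10_E hC4 hC6 hm hb h hqm hbq hl1 hl2 hrc
  obtain ⟨A, hA⟩ := DN.exists_IsG (n := n) (t := t) (F0 := f * n' * NI m) (N := s + 3) (by positivity)
    (by omega)
  obtain ⟨-, hrp1⟩ := rp1 h hl1 hl2
  have hrp2 := rp2 h hA
  have hFpos : 0 < f * (n' * 2 ^ (s + 3)) := by positivity
  have h2F : 2 ∣ f * (n' * 2 ^ (s + 3)) := ⟨f * (n' * 2 ^ (s + 2)), by ring⟩
  have hqF' : q ∣ f * (n' * 2 ^ (s + 3)) := Dvd.dvd.mul_left hqF _
  have hper : ∀ v u : OO n t, ((f : OO n t) ∣ v - 1 ∧ Cop v 2) → ((f : OO n t) ∣ u - 1 ∧ Cop u 2) →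
      ((f * (n' * 2 ^ (s + 3)) : ℕ) : OO n t) ∣ v - u →
      pt m b r.num q (f * (n' * 2 ^ (s + 3))) v = pt m b r.num q (f * (n' * 2 ^ (s + 3))) u :=
    fun v u _ _ hvu => pt_per hm.ne hb.ne r.num hFpos hq0 hqF' hvu
  refine ⟨?_, ?_, fun σ hσ hσK => C10_fix hT1 hE6 hE10 hP hm hb h hq0 hqF h2F hrp1 hper hσ hσK hE⟩
  · -- integrality of `(pO/2) E`
    have e1 := RpI.sum hrp1 hrp2 (pt m b r.num q (f * (n' * 2 ^ (s + 3)))) hper
    rw [e1, Finset.sum_product_right] at hE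
    obtain ⟨Y, hY'⟩ : ∃ Y : Om, Y = ∑ y ∈ Finset.range n' ×ˢ Finset.range n', (∑ x ∈ A,
        pt m b r.num q (f * (n' * 2 ^ (s + 3))) (x * ga (f * 2 ^ (s + 3)) y.1 y.2)) /
        toO (pO n t) ^ (2 * (s + 3) - 1) := ⟨_, rfl⟩
    have hY : VP P Y := by
      rw [hY']
      refine DI.VP.sum _ _ fun y _ => ?_
      have hg := ga_sub_one (n := n) (t := t) (f * 2 ^ (s + 3)) y.1 y.2
      exact (C10_orb hT1 hT2 hE6 hE10 hD9 hP hm hb r.num h hq0 hqF hA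
        (CV_cast_dvd (Dvd.intro _ rfl) hg)).1
    rw [← Finset.sum_div] at hY'
    have e2 : toO (pO n t) / 2 * etE f m b r =
        (toO (pO n t) ^ 2 / 2) ^ (s + 3) * ((n' : Om)⁻¹ * Y) := by
      rw [hE]
      change toO (pO n t) / 2 * (1 / (q : Om) * (∑ y ∈ Finset.range n' ×ˢ Finset.range n', ∑ x ∈ A,
        pt m b r.num q (f * (n' * 2 ^ (s + 3))) (x * ga (f * 2 ^ (s + 3)) y.1 y.2))) = _
      have e3 : (∑ y ∈ Finset.range n' ×ˢ Finset.range n', ∑ x ∈ A,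
          pt m b r.num q (f * (n' * 2 ^ (s + 3))) (x * ga (f * 2 ^ (s + 3)) y.1 y.2)) =
          toO (pO n t) ^ (2 * (s + 3) - 1) * Y := by
        rw [hY']
        field_simp
      have e4 : (q : Om) = (n' : Om) * 2 ^ (s + 2) := by exact_mod_cast hqn
      have e5 : 2 * (s + 3) - 1 = 2 * (s + 2) + 1 := by omega
      have e6 : (toO (pO n t) ^ 2 / 2) ^ (s + 3) =
          toO (pO n t) ^ (2 * (s + 2) + 1) * toO (pO n t) / (2 ^ (s + 2) * 2) := by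
        rw [div_pow, ← pow_mul, ← pow_succ, ← pow_succ, show 2 * (s + 3) = 2 * (s + 2) + 1 + 1 by ring]
      rw [e3, e4, e5, e6]
      generalize toO (pO n t) ^ (2 * (s + 2) + 1) = X
      generalize hZ : (2 : Om) ^ (s + 2) = Z
      have hZ0 : Z ≠ 0 := by
        rw [← hZ]
        exact pow_ne_zero _ two_ne_zero
      field_simp
    rw [e2]
    exact (hp1.pow _).1.mul (hnu.mul hY)
  · -- integrality of `η`
    obtain ⟨q1, hq1⟩ : ∃ q1 : ℕ, q1 = 2 ^ 0 * r.den := ⟨_, rfl⟩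
    have hq10 : 0 < q1 := by omega
    have hq12 : 2 * q1 = n' * 2 ^ (s + 1) := by
      rw [hq1, hden]
      ring
    have hq1n : q1 = n' * 2 ^ s := by
      rw [hq1, hden]
      ring
    have h' : Md f (NI m) n' (s + 1) q1 := ⟨hm.odd, by omega, hmo, hn', hn'f, hmf, by omega, hq12⟩
    have hqF1 : q1 ∣ n' * 2 ^ (s + 1) := ⟨2, by rw [← hq12]; ring⟩
    obtain ⟨hqm1, hbq1⟩ := C10_cop hm hb hM hr 0
    rw [← hq1] at hqm1 hbq1
    have hrc1 : r = (r.num : ℚ) / (q1 : ℕ) := by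
      rw [hq1, pow_zero, one_mul, hrr]
    have hE1 := C10_eta hC4 hm hb h' hqm1 hbq1 hrc1
    obtain ⟨A', hA'⟩ := DN.exists_IsG (n := n) (t := t) (F0 := f * n' * NI m) (N := s + 1) (by positivity)
      (by omega)
    classical
    obtain ⟨A1, hA1⟩ : ∃ A1 : Finset (OO n t), ∀ α : OO n t, α ∈ A1 ↔ α ∈ A' ∧ (2 : OO n t) ∣ α - 1 :=
      ⟨A'.filter fun α => (2 : OO n t) ∣ α - 1, fun α => Finset.mem_filter⟩
    have hFpos1 : 0 < f * (n' * 2 ^ (s + 1)) := by positivity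
    have hqF1' : q1 ∣ f * (n' * 2 ^ (s + 1)) := Dvd.dvd.mul_left hqF1 _
    have e1 := RpI.sum (rp3 (n := n) (t := t) h') (rp4 h' hA' hA1)
      (pt m b r.num q1 (f * (n' * 2 ^ (s + 1))))
      (fun v u _ _ hvu => pt_per hm.ne hb.ne r.num hFpos1 hq10 hqF1' hvu)
    rw [e1, Finset.sum_product_right] at hE1
    obtain ⟨Y, hY'⟩ : ∃ Y : Om, Y = ∑ y ∈ Finset.range n' ×ˢ Finset.range n', (∑ x ∈ A1,
        pt m b r.num q1 (f * (n' * 2 ^ (s + 1))) (x * ga (f * 2 ^ (s + 1)) y.1 y.2)) /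
        2 ^ (s + 1 - 1) := ⟨_, rfl⟩
    have hY : VP P Y := by
      rw [hY']
      refine DI.VP.sum _ _ fun y _ => ?_
      have hg := ga_sub_one (n := n) (t := t) (f * 2 ^ (s + 1)) y.1 y.2
      exact (C10_orb hT1 hT2 hE6 hE10 hD9 hP hm hb r.num h' hq10 hqF1 hA'
        (CV_cast_dvd (Dvd.intro _ rfl) hg)).2 A1 hA1
    rw [← Finset.sum_div] at hY'
    have e2 : etaM (2 * f) m b r = (n' : Om)⁻¹ * Y := by
      rw [hE1]
      change 1 / (q1 : Om) * (∑ y ∈ Finset.range n' ×ˢ Finset.range n', ∑ x ∈ A1,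
        pt m b r.num q1 (f * (n' * 2 ^ (s + 1))) (x * ga (f * 2 ^ (s + 1)) y.1 y.2)) = _
      have e3 : (∑ y ∈ Finset.range n' ×ˢ Finset.range n', ∑ x ∈ A1,
          pt m b r.num q1 (f * (n' * 2 ^ (s + 1))) (x * ga (f * 2 ^ (s + 1)) y.1 y.2)) = 2 ^ s * Y := by
        rw [hY', Nat.add_sub_cancel]
        field_simp
      have e4 : (q1 : Om) = (n' : Om) * 2 ^ s := by exact_mod_cast hq1n
      rw [e3, e4]
      field_simp
    rw [e2]
    exact hnu.mul hY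

end Pool.Agent.DR
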