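import Pool.Agent.Lib.DR.CV.V2

/-!
# Theorem DR, part CV, module V3: the hidden symmetries modulo `P`, `S_V` (author helper97)
-/

set_option autoImplicit false

open scoped Pointwise nonZeroDivisors

noncomputable section

namespace Pool.Agent.DR

open Pool.Agent.MuZ Pool.Agent.FW NumberField IsDedekindDomain Pool.Agent.DN
open Pool.Agent.DI (io ofC io_inj exists_io io_ofC ofC_io VP MP UP TP ex sqr sqr_sq kap)
open Pool.Agent.DM (RF rs rs_of rs_add rs_sub rs_mul rs_neg rs_zero rs_one rs_pow rs_int rs_eq rs_mp)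
open DI.V (A2)

variable {n t : ℕ}

theorem v3_pp_ne [Rmf n t] (hO4 : S_O4) : pp n t ≠ ⊥ := by
  intro h
  have h1 := ((aO2 n t).2.2.2.2.2.1 (pp n t)).2 h
  rw [(hO4 n t).2.2.1] at h1
  omega

theorem v3_pp_pri [Rmf n t] (hO4 : S_O4) {f : ℕ} (hf : Odd f) : PrI (pp n t) f := by
  refine (CV_NI_cop hf.pos).2 ?_
  rw [(hO4 n t).2.2.1]
  exact Nat.coprime_two_left.2 hf

theorem v3_rO_self [Rmf n t] (hR1 : S_R1) {b : Ideal (OO n t)} (hb : G15 b) : rO b b = 1 := by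
  obtain ⟨h1, h2, -⟩ := r_rO hR1 hb hb
  apply io_inj
  rw [h1, map_one, div_self h2]

variable [Rmf n t] {P : Ideal ZZ} {f M : ℕ} {m : Ideal (OO n t)} {R : Finset (Ideal (OO n t))}
  {χ : Ideal (OO n t) → Om}

/-- The permutation of the classes by the multiplication with `pp`. -/
theorem VH.pr (h : VH P f M m R χ) : ∃ π : Ideal (OO n t) → Ideal (OO n t),
    (∀ b1 ∈ R, π b1 ∈ R ∧ PpR f (π b1) b1) ∧
    ∀ g : Ideal (OO n t) → Om, ∑ b ∈ R, g b = ∑ b1 ∈ R, g (π b1) := by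
  classical
  have hf0 := h.hm.odd.pos
  have hp0 := v3_pp_ne (n := n) (t := t) h.O4
  have hpf := v3_pp_pri (n := n) (t := t) h.O4 h.hm.odd
  obtain ⟨h71, h72, h73, h74, h75, -⟩ := aO7 n t f hf0
  have hex : ∀ b1 : Ideal (OO n t), ∃ b : Ideal (OO n t), b1 ∈ R → b ∈ R ∧ PpR f b b1 := by
    intro b1
    by_cases hb : b1 ∈ R
    · have hF := h.hR b1 hb
      obtain ⟨b, hb', h2⟩ := h.hRC.ex (pp n t * b1) (mul_ne_zero hp0 hF.ne)
        (CV_pri_mul hpf (CV_pri_dvd hF.cop (Dvd.intro_left _ rfl)))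
      exact ⟨b, fun _ => ⟨hb', h.hR b hb', hF, h72 _ _ h2⟩⟩
    · exact ⟨⊤, fun h1 => absurd h1 hb⟩
  choose π hπ using hex
  have hmaps : Set.MapsTo π (R : Set (Ideal (OO n t))) R := fun b hb => (hπ b hb).1
  have hinj : Set.InjOn π (R : Set (Ideal (OO n t))) := by
    intro b hb b' hb' hbb
    have h1 := (hπ b hb).2.ray
    have h2 := (hπ b' hb').2.ray
    rw [← hbb] at h2
    have h3 := h73 _ _ _ (h72 _ _ h1) h2
    refine h.hRC.uni b hb b' hb' (h75 b b' (pp n t) hp0 hpf ?_)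
    rw [mul_comm b, mul_comm b']
    exact h3
  have hsurj : Set.SurjOn π (R : Set (Ideal (OO n t))) R :=
    Finset.surjOn_of_injOn_of_card_le π hmaps hinj le_rfl
  exact ⟨π, hπ, fun g => (Finset.sum_nbij π hmaps hinj hsurj fun b _ => rfl).symm⟩

theorem VH.pO0 (h : VH P f M m R χ) : toO (pO n t) ≠ 0 := by
  have hPp := h.hP.1.1
  intro h3
  have h4 := (h.T0 n t P h.hP).1.ne_zero
  rw [h3] at h4
  norm_num at h4

/-- The framing of `pp b1`. -/
theorem VH.rho (h : VH P f M m R χ) {b1 : Ideal (OO n t)} (hb : FB f b1) : G15 (pp n t * b1) ∧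
    UP P (rO b1 (pp n t * b1) ^ 2 / 2) ∧ rO b1 (pp n t * b1) * rO (pp n t * b1) b1 = 1 := by
  have hg : G15 (pp n t * b1) := ⟨mul_ne_zero (v3_pp_ne h.O4) hb.ne,
    CV_pri_mul (CV_pri_dvd (v3_pp_pri h.O4 h.hm.odd) h.hm.dvd) (h.g15 hb).cop⟩
  refine ⟨hg, (h.D2 n t P h.hP b1 (h.g15 hb)).2.2.2.2.2.2.2, ?_⟩
  rw [← r_rO_trans h.R1 (h.g15 hb) hg (h.g15 hb), v3_rO_self h.R1 (h.g15 hb)]

/-- **`n` odd: the hidden symmetry modulo `P`.** -/
theorem VH.U_odd (h : VH P f M m R χ) (hn : n % 2 = 1) {r : ℚ} (hr : r.den.Coprime M) :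
    MP P (xw f m R χ ((r + 1) / (M * (r + 1) + 1)) - xw f m R χ (r / (M * r + 1))) := by
  have hPp := h.hP.1.1
  have hM2 := h.M2
  obtain ⟨π, hπ, hs⟩ := h.pr
  unfold xw
  rw [← Finset.sum_sub_distrib, hs (fun b => Fb f m χ ((r + 1) / (M * (r + 1) + 1)) b -
    Fb f m χ (r / (M * r + 1)) b)]
  refine DI.MP.sum _ _ fun b1 hb1 => ?_
  obtain ⟨hbR, hpp⟩ := hπ b1 hb1
  have hb1F := h.hR b1 hb1
  have hbF := h.hR _ hbR
  obtain ⟨-, -, h9⟩ := h.C9o n t f M m (π b1) b1 hn h.hm hpp (r_lv2 h.hM.lv hbR hb1) r hr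
  obtain ⟨hg, hu, hr1⟩ := h.rho hb1F
  have hp0 := h.pO0
  have hp2 := (h.T0 n t P h.hP).1
  have hr0 : rO b1 (pp n t * b1) ≠ 0 := left_ne_zero_of_mul_eq_one hr1
  have e1 : Fb f m χ ((r + 1) / (M * (r + 1) + 1)) (π b1) - Fb f m χ (r / (M * r + 1)) (π b1) =
      χ (π b1) * rO ⊤ (π b1) * (-(toO (pO n t) * rO (pp n t * b1) b1) * etE f m b1 (2 * r)) := by
    unfold Fb
    linear_combination (χ (π b1) * rO ⊤ (π b1) * (toO (pO n t) / 2)) * h9
  have h1 : UP P (toO (pO n t) * rO (pp n t * b1) b1) := by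
    refine DI.UP.of_pow (n := 2) (by norm_num) ?_
    have e2 : (toO (pO n t) * rO (pp n t * b1) b1) ^ 2 =
        (toO (pO n t) ^ 2 / 2) * (rO b1 (pp n t * b1) ^ 2 / 2)⁻¹ := by
      have e3 : rO (pp n t * b1) b1 = (rO b1 (pp n t * b1))⁻¹ := by
        field_simp
        linear_combination hr1
      rw [e3]
      field_simp
    rw [e2]
    exact hp2.mul hu.inv
  have h2 : MP P (etE f m b1 (2 * r)) := by
    have e2 : etE f m b1 (2 * r) = toO (pO n t) * ((toO (pO n t) ^ 2 / 2)⁻¹ *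
        (toO (pO n t) / 2 * etE f m b1 (2 * r))) := by
      field_simp
    rw [e2]
    exact DI.MP.mul_right (h.T0 n t P h.hP).2.1 (hp2.inv.1.mul (h.E_vp (cdbl hM2 hr) hb1F))
  rw [e1]
  exact DI.MP.mul_left ((V2_up h.hχ hPp hbF).1.mul (h.rOtop hbF).1) (DI.MP.mul_left h1.1.neg h2)

/-- **`n` even: the hidden symmetry modulo `P`.** -/
theorem VH.U_even (h : VH P f M m R χ) (hn : n % 2 = 0) {c : ℤ} (hc : (4 : ℤ) ∣ M + c) :
    ∃ la : Om, VP P la ∧ ∀ r : ℚ, r.den.Coprime M →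
    MP P (xw f m R χ (r / (M * r + 1)) - xw f m R χ 0 -
      la * (xw f m R χ ((r + c) / 2) - xw f m R χ (c / 2))) := by
  have hPp := h.hP.1.1
  have hM2 := h.M2
  have hf0 := h.hm.odd.pos
  have hf15 : 15 ≤ f := Nat.le_of_dvd hf0 h.hm.dvd
  obtain ⟨π, hπ, hs⟩ := h.pr
  obtain ⟨bt, hbt, hray⟩ := h.hRC.ex ⊤ (CV_fb_top (n := n) (t := t) f).ne (CV_top _)
  obtain ⟨h71, h72, h73, h74, h75, -⟩ := aO7 n t f hf0
  have he0 := hπ bt hbt
  have he0F := h.hR _ he0.1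
  have hχe := V2_up h.hχ hPp he0F
  have hχe0 := hχe.ne_zero
  refine ⟨(χ (π bt))⁻¹, hχe.inv.1, fun r hr => ?_⟩
  unfold xw
  rw [hs (fun b => Fb f m χ ((r + c) / 2) b), hs (fun b => Fb f m χ (c / 2) b), ← Finset.sum_sub_distrib,
    ← Finset.sum_sub_distrib, Finset.mul_sum, ← Finset.sum_sub_distrib]
  refine DI.MP.sum _ _ fun b1 hb1 => ?_
  obtain ⟨hbR, hpp⟩ := hπ b1 hb1
  have hb1F := h.hR b1 hb1
  have hbF := h.hR _ hbR
  obtain ⟨κ, hκ, h9⟩ := h.C9e n t f M m (π b1) b1 hn h.hm hpp (r_lv2 h.hM.lv hbR hb1) c hc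
  obtain ⟨hg, hu, hr1⟩ := h.rho hb1F
  have hκP := hκ P h.hP
  have h9' := (h9 r hr).2
  have hp0 := h.pO0
  have hp2 := (h.T0 n t P h.hP).1
  -- the characters
  have hχ1 : (χ (π bt))⁻¹ * χ (π b1) = χ b1 := by
    have h1 : Ray f (π b1) (π bt * b1) := by
      have k1 := h74 _ _ _ _ he0.2.ray (h71 b1)
      have k2 := h74 _ _ _ _ (h74 _ _ _ _ (h71 (pp n t)) hray) (h71 b1)
      rw [Ideal.mul_top] at k2
      exact h73 _ _ _ hpp.ray (h73 _ _ _ k2 (h72 _ _ k1))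
    have h2 := r_chi_ray h.O4 h.hm.odd h.hχ hPp hbF (CV_fb_mul he0F hb1F) h1
    rw [h2, h.hχ.mul, inv_mul_cancel_left₀ hχe0]
  -- the framings
  obtain ⟨β, β', k1, k2, k3, k4, k5⟩ := V1_ray_one (by omega) hpp.ray
  have e1 := r_rO_mul h.R1 r_G15_top (h.g15 hbF) (r_15f h.hm.dvd k3)
  have e2 := r_rO_mul h.R1 r_G15_top hg (r_15f h.hm.dvd k4)
  rw [k5, e2] at e1
  have hβ0 : toO β ≠ 0 := toO_ne (CV_ne_of_cop (by omega) k1)
  have hβ'n : β' ≠ 0 := CV_ne_of_cop (by omega) k2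
  have hβ'0 : toO β' ≠ 0 := toO_ne hβ'n
  have htr := r_rO_trans h.R1 r_G15_top (h.g15 hb1F) hg
  have hu1 := h.rOtop hb1F
  have hu2 := h.rOtop hbF
  have hrb0 := hu2.ne_zero
  have hrb1 := hu1.ne_zero
  have hq : UP P (toO β / toO (β' * pO n t)) := by
    refine DI.UP.of_pow (n := 2) (by norm_num) ?_
    have e3 : (toO β / toO (β' * pO n t)) ^ 2 =
        (rO ⊤ b1 * (rO ⊤ (π b1))⁻¹) ^ 2 * ((rO b1 (pp n t * b1) ^ 2 / 2) * (toO (pO n t) ^ 2 / 2)⁻¹) := by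
      have e4 : toO β = toO β' * (rO ⊤ b1 * rO b1 (pp n t * b1)) * (rO ⊤ (π b1))⁻¹ := by
        rw [← htr]
        field_simp
        linear_combination -e1
      rw [toO_mul, e4]
      field_simp
    rw [e3]
    exact ((hu1.mul hu2.inv).pow 2).mul (hu.mul hp2.inv)
  have hpn : pO n t ≠ 0 := by
    intro h3
    apply hp0
    rw [h3, toO_zero]
  have hq1 := K_unit h.O4 h.T0 h.hP (mul_ne_zero hβ'n hpn) hq
  have hfac : MP P (κ * toO (pO n t) * (toO β / toO (β' * pO n t)) - 1 * 1) :=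
    CV_mp_mul hPp hq.1 DI.VP.one hκP hq1
  -- the term
  have e5 : Fb f m χ (r / (M * r + 1)) b1 - Fb f m χ 0 b1 - (χ (π bt))⁻¹ *
      (Fb f m χ ((r + c) / 2) (π b1) - Fb f m χ (c / 2) (π b1)) =
      χ b1 * rO ⊤ (π b1) * ((κ * toO (pO n t) * (toO β / toO (β' * pO n t)) - 1 * 1) *
        (toO (pO n t) / 2 * etE f m (π b1) ((r + c) / 2) - toO (pO n t) / 2 * etE f m (π b1) (c / 2))) := by
    have e6 : Fb f m χ (r / (M * r + 1)) b1 - Fb f m χ 0 b1 = χ b1 * (rO ⊤ b1 * rO b1 (pp n t * b1)) * κ *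
        (toO (pO n t) / 2 * etE f m (π b1) ((r + c) / 2) - toO (pO n t) / 2 * etE f m (π b1) (c / 2)) := by
      unfold Fb
      rw [h9']
      ring
    have e7 : (χ (π bt))⁻¹ * (Fb f m χ ((r + c) / 2) (π b1) - Fb f m χ (c / 2) (π b1)) =
        χ b1 * rO ⊤ (π b1) *
        (toO (pO n t) / 2 * etE f m (π b1) ((r + c) / 2) - toO (pO n t) / 2 * etE f m (π b1) (c / 2)) := by
      unfold Fb
      rw [← hχ1]
      ring
    have e8 : toO (pO n t) * (toO β / toO (β' * pO n t)) * rO ⊤ (π b1) = rO ⊤ b1 * rO b1 (pp n t * b1) := by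
      rw [← htr, toO_mul]
      field_simp
      linear_combination -e1
    rw [e6, e7]
    linear_combination (-χ b1 * κ * (toO (pO n t) / 2 * etE f m (π b1) ((r + c) / 2) -
      toO (pO n t) / 2 * etE f m (π b1) (c / 2))) * e8
  rw [e5]
  have hd1 : ((r + c) / 2).den.Coprime M := chalf hM2 h.hM.lv.odd (cadd hr c)
  have hd2 : ((c : ℚ) / 2).den.Coprime M := by
    have h7 := chalf hM2 h.hM.lv.odd (cadd (cz M) c)
    rwa [zero_add] at h7
  exact DI.MP.mul_left ((V2_up h.hχ hPp hb1F).1.mul hu2.1)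
    (DI.MP.mul_right hfac ((h.E_vp hd1 hbF).sub (h.E_vp hd2 hbF)))

/-! ## The symbol -/

/-- The character with values in the residue ring. -/
def psF (P : Ideal ZZ) [P.IsPrime] (χ : Ideal (OO n t) → Om) (M : ℕ) (d : ℤ) : RF P := by
  classical
  exact if Odd d then rs P (χ (sp (d : OO n t))) else rs P (χ (sp ((d + M : ℤ) : OO n t)))

theorem VH.psF_eq (h : VH P f M m R χ) [P.IsPrime] {d d' : ℤ} (hd : IsCoprime d (M : ℤ))
    (hd2 : Odd d') (hdd : (M : ℤ) ∣ d' - d) : psF P χ M d = rs P (χ (sp (d' : OO n t))) := by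
  have hf0 := h.hm.odd.pos
  have hfM := (r_lvd h.hM.lv).1
  have hfM' : (f : ℤ) ∣ (M : ℤ) := by exact_mod_cast hfM
  have key : ∀ {x y : ℤ}, IsCoprime x (M : ℤ) → Odd x → Odd y → (M : ℤ) ∣ x - y →
      χ (sp (x : OO n t)) = χ (sp (y : OO n t)) := by
    intro x y hx hxo hyo hxy
    have h1 : ((2 * f : ℕ) : OO n t) ∣ (x : OO n t) - (y : OO n t) := by
      have e : (x : OO n t) - (y : OO n t) = ((x - y : ℤ) : OO n t) := by push_cast; ring
      rw [e, nat_dvd_iff, re_int, im_int]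
      refine ⟨?_, dvd_zero _⟩
      push_cast
      refine IsCoprime.mul_dvd ?_ (hxo.sub_odd hyo).two_dvd (dvd_trans hfM' hxy)
      have := Nat.isCoprime_iff_coprime.2 (Nat.coprime_two_left.2 h.hm.odd)
      exact_mod_cast this
    have h2 : Cop (x : OO n t) (2 * f) := by
      apply CV_cop_int
      push_cast
      refine IsCoprime.mul_right ?_ (hx.of_isCoprime_of_dvd_right hfM')
      obtain ⟨z, hz⟩ := hxo
      exact ⟨1, -z, by rw [hz]; ring⟩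
    have h3 : Cop (y : OO n t) (2 * f) := cop_congr h1 h2
    exact V2_ray h.hχ (CV_fb_sp hf0 h2) (CV_fb_sp hf0 h3) (V1_ray_congr (by omega) h2 h3 h1)
  have hcop : ∀ {x : ℤ}, (M : ℤ) ∣ x - d → IsCoprime x (M : ℤ) := by
    rintro x ⟨s, hs⟩
    have e : x = d + M * s := by linear_combination hs
    rw [e]
    exact (IsCoprime.add_mul_left_left_iff).2 hd
  unfold psF
  by_cases h1 : Odd d
  · rw [if_pos h1]
    rw [key hd h1 hd2 (by rw [← neg_sub]; exact (dvd_neg).2 hdd)]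
  · rw [if_neg h1]
    have h2 : Odd (d + M : ℤ) := by
      have h3 : Odd (M : ℤ) := by exact_mod_cast h.hM.lv.odd
      exact (Int.not_odd_iff_even.1 h1).add_odd h3
    have h4 : (M : ℤ) ∣ (d + M : ℤ) - d' := by
      have e : (d + M : ℤ) - d' = M - (d' - d) := by ring
      rw [e]
      exact dvd_sub dvd_rfl hdd
    rw [key (hcop ⟨1, by ring⟩) h2 hd2 h4]

theorem VH.sb (h : VH P f M m R χ) [P.IsPrime] : Sb M (fun r => rs P (xw f m R χ r)) (psF P χ M) := by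
  have hPp := h.hP.1.1
  have hM2 := h.M2
  have hMo : Odd (M : ℤ) := by exact_mod_cast h.hM.lv.odd
  refine ⟨fun r hr => ?_, fun a b c d hG hb hc r hr => ?_, fun d e hd hde => ?_, ?_⟩
  · exact (rs_eq (h.xw_vp (cadd1 hr)) (h.xw_vp hr)).2 (h.xw_T hr)
  · obtain ⟨hdo, hdu, h1⟩ := h.g hG hb hc hr
    obtain ⟨hdM, -, -, hgr⟩ := CV_mob hM2 hG hr
    obtain ⟨hbd, -⟩ := cmob hM2 hG
    have v1 := h.xw_vp (χ := χ) hgr
    have v2 := h.xw_vp (χ := χ) hbd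
    have v3 := h.xw_vp (χ := χ) hr
    have v4 := h.xw_vp (χ := χ) (cz M)
    have h2 := (rs_eq (v1.sub v2) (hdu.1.mul (v3.sub v4))).2 h1
    rw [rs_sub v1 v2, rs_mul hdu.1 (v3.sub v4), rs_sub v3 v4] at h2
    change rs P _ - rs P _ = psF P χ M d * (rs P _ - rs P _)
    rw [h.psF_eq hdM hdo (by rw [sub_self]; exact dvd_zero _)]
    exact h2
  · have h0 : ∃ d' : ℤ, Odd d' ∧ (M : ℤ) ∣ d' - d := by
      rcases Int.even_or_odd d with h1 | h1
      · exact ⟨d + M, h1.add_odd hMo, ⟨1, by ring⟩⟩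
      · exact ⟨d, h1, by rw [sub_self]; exact dvd_zero _⟩
    obtain ⟨d', hd2, hdd⟩ := h0
    have he : IsCoprime e (M : ℤ) := by
      obtain ⟨s, hs⟩ := hde
      have e1 : e = d + M * (-s) := by linear_combination -hs
      rw [e1]
      exact (IsCoprime.add_mul_left_left_iff).2 hd
    have hde' : (M : ℤ) ∣ d' - e := by
      have e1 : d' - e = (d' - d) + (d - e) := by ring
      rw [e1]
      exact dvd_add hdd hde
    rw [h.psF_eq hd hd2 hdd, h.psF_eq he hd2 hde']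
  · rw [h.psF_eq (isCoprime_one_left) odd_one (by rw [sub_self]; exact dvd_zero _), Int.cast_one, CV_sp_one,
      V2_top h.hχ hPp, rs_one]

/-- **`S_V`.** -/
theorem sV (hO4 : S_O4) (hT0 : S_T0) (hC1 : S_C1) (hC6 : S_C6) (hC9o : S_C9o) (hC9e : S_C9e)
    (hC10 : S_C10) (hR1 : S_R1) (hD2 : S_D2) : S_V := by
  intro n t _ f M m R hm hR hRC hM χ hχ P hP
  haveI hPp : P.IsPrime := hP.1.1
  have h : VH P f M m R χ := ⟨hP, hm, hR, hRC, hM, hχ, hO4, hT0, hC1, hC6, hC9o, hC9e, hC10, hR1, hD2⟩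
  have hM3 := h.M3
  have hM2 := h.M2
  have ho := hM.lv.odd
  have hvx : ∀ {r : ℚ}, r.den.Coprime M → VP P (xs f m R χ r) := by
    intro r hr
    rw [xs_eq]
    exact (h.xw_vp hr).add (h.xw_vp (cneg hr))
  refine ⟨fun r hr => hvx hr, fun hA a b c d hG hd => ?_⟩
  have hW : ∀ {r : ℚ}, r.den.Coprime M →
      rs P (xs f m R χ r) = rs P (xw f m R χ r) + rs P (xw f m R χ (-r)) := by
    intro r hr
    rw [xs_eq, rs_add (h.xw_vp hr) (h.xw_vp (cneg hr))]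
  have hA' : ∀ (c : ℤ) (j : ℕ), rs P (xw f m R χ (c / 2 ^ j)) + rs P (xw f m R χ (-(c / 2 ^ j))) =
      rs P (xw f m R χ 0) + rs P (xw f m R χ (-0)) := by
    intro c j
    have h1 : ((c : ℚ) / 2 ^ j).den.Coprime M := thmV_den ho ⟨c, j, rfl⟩
    rw [← hW h1, ← hW (cz M)]
    exact (rs_eq (hvx h1) (hvx (cz M))).2 (hA c j)
  obtain ⟨hbd, -⟩ := cmob hM2 hG
  refine (rs_eq (hvx hbd) (hvx (cz M))).1 ?_
  rw [hW hbd, hW (cz M)]
  rcases Nat.mod_two_eq_zero_or_one n with hn | hn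
  · obtain ⟨la, hla, hU⟩ := h.U_even hn (c := -(M : ℤ)) (by rw [add_neg_cancel]; exact dvd_zero _)
    have hU' : ∀ r : ℚ, r.den.Coprime M → rs P (xw f m R χ (r / (M * r + 1))) =
        rs P la * (rs P (xw f m R χ ((r + ((-(M : ℤ) : ℤ) : ℚ)) / 2)) -
          rs P (xw f m R χ (((-(M : ℤ) : ℤ) : ℚ) / 2))) + rs P (xw f m R χ 0) := by
      intro r hr
      have hd1 : ((r + ((-(M : ℤ) : ℤ) : ℚ)) / 2).den.Coprime M := chalf hM2 ho (cadd hr _)
      have hd2 : (((-(M : ℤ) : ℤ) : ℚ) / 2).den.Coprime M := by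
        have h7 := chalf hM2 ho (cadd (cz M) (-(M : ℤ)))
        rwa [zero_add] at h7
      have v1 := h.xw_vp (χ := χ) (Udir hM2 hr).2
      have v2 := h.xw_vp (χ := χ) (cz M)
      have v3 := h.xw_vp (χ := χ) hd1
      have v4 := h.xw_vp (χ := χ) hd2
      have h2 := (rs_eq (v1.sub v2) (hla.mul (v3.sub v4))).2 (hU r hr)
      rw [rs_sub v1 v2, rs_mul hla (v3.sub v4), rs_sub v3 v4] at h2
      linear_combination h2
    exact h.sb.symE hM3 ho hU' hA' hG hd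
  · refine h.sb.symO hM3 ho (fun r hr => ?_) hA' hG hd
    exact (rs_eq (h.xw_vp (Udir hM2 (cadd1 hr)).2) (h.xw_vp (Udir hM2 hr).2)).2 (h.U_odd hn hr)

end Pool.Agent.DR
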