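import Pool.Agent.Lib.DR.V.V
import Pool.Agent.Lib.DN.CV.Bas

/-!
# Theorem DR, part CV, module Abs: symbols with the hidden symmetry at a ramified prime (author helper97)

`genO`: `T`, `G2 = U T U⁻¹` and the elements with `4 ∣ b`, `8 M ∣ c` generate `Γ_0(M)`.
`genE`: `T`, `G3 = U T² U⁻¹` and these elements generate `Γ_0(2 M)`.
-/

set_option autoImplicit false

noncomputable section

namespace Pool.Agent.DR

open Pool.Agent.DN

/-! ## Arithmetic modulo `8` -/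

theorem sq8 {M : ℕ} (ho : Odd M) : ∃ q : ℤ, (M : ℤ) ^ 2 = 8 * q + 1 := by
  obtain ⟨x, hx⟩ := ho
  have h : Even ((x : ℤ) * (x + 1)) := Int.even_mul_succ_self x
  obtain ⟨y, hy⟩ := h
  refine ⟨y, ?_⟩
  rw [hx]
  push_cast
  linear_combination 4 * hy

/-- Solving `b + k d = 0` modulo `8`, `d` odd. -/
theorem sol8 (b d : ℤ) (hd : Odd d) : ∃ k : ℤ, (8 : ℤ) ∣ b + k * d := by
  refine ⟨-(b * d), ?_⟩
  have h : (8 : ℤ) ∣ d ^ 2 - 1 := Int.eight_dvd_sq_sub_one_of_odd hd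
  obtain ⟨y, hy⟩ := h
  exact ⟨-(b * y), by linear_combination (-b) * hy⟩

/-! ## Generation of `Γ_0(M)` -/

section gen

variable {M : ℕ} {Q : ℤ → ℤ → ℤ → ℤ → Prop}

theorem G0_T {a b c d : ℤ} (h : G0 M a b c d) (k : ℤ) : G0 M (a + k * c) (b + k * d) c d :=
  ⟨by linear_combination h.1, h.2⟩

theorem pow_T {S : ℤ → ℤ → ℤ → ℤ → Prop} (hS : ∀ a b c d k : ℤ, S a b c d → S (a + k * c) (b + k * d) c d)
    (hT : ∀ a b c d : ℤ, S a b c d → (Q (a + c) (b + d) c d ↔ Q a b c d)) {a b c d : ℤ}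
    (h : S a b c d) (k : ℤ) : Q (a + k * c) (b + k * d) c d ↔ Q a b c d := by
  have hn : ∀ (k : ℕ) {a b c d : ℤ}, S a b c d → (Q (a + k * c) (b + k * d) c d ↔ Q a b c d) := by
    intro k
    induction k with
    | zero =>
      intro a b c d _
      rw [Nat.cast_zero, zero_mul, zero_mul, add_zero, add_zero]
    | succ k ih =>
      intro a b c d h
      have h1 := hT _ _ _ _ (hS a b c d k h)
      have e1 : a + ((k + 1 : ℕ) : ℤ) * c = a + k * c + c := by push_cast; ring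
      have e2 : b + ((k + 1 : ℕ) : ℤ) * d = b + k * d + d := by push_cast; ring
      rw [e1, e2, h1]
      exact ih h
  rcases Int.eq_nat_or_neg k with ⟨j, rfl | rfl⟩
  · exact hn j h
  · have h1 := hn j (hS a b c d (-(j : ℤ)) h)
    have e1 : a + -(j : ℤ) * c + j * c = a := by ring
    have e2 : b + -(j : ℤ) * d + j * d = b := by ring
    rw [e1, e2] at h1
    exact h1.symm

/-- `T`, `G2` and the elements with `4 ∣ b`, `8 ∣ c`. -/
theorem genO (ho : Odd M)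
    (h0 : ∀ a b c d : ℤ, G0 M a b c d → (4 : ℤ) ∣ b → (8 : ℤ) ∣ c → Q a b c d)
    (hT : ∀ a b c d : ℤ, G0 M a b c d → (Q (a + c) (b + d) c d ↔ Q a b c d))
    (hG : ∀ a b c d : ℤ, G0 M a b c d →
      (Q ((1 - M) * a + c) ((1 - M) * b + d) (-M ^ 2 * a + (1 + M) * c) (-M ^ 2 * b + (1 + M) * d) ↔
        Q a b c d)) : ∀ a b c d : ℤ, G0 M a b c d → Q a b c d := by
  have hTk : ∀ {a b c d : ℤ}, G0 M a b c d → ∀ k : ℤ, (Q (a + k * c) (b + k * d) c d ↔ Q a b c d) :=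
    fun h k => pow_T (S := G0 M) (fun a b c d k h => G0_T h k) hT h k
  obtain ⟨q, hq⟩ := sq8 ho
  -- `c` divisible by `8`
  have s1 : ∀ a b c d : ℤ, G0 M a b c d → (8 : ℤ) ∣ c → Q a b c d := by
    intro a b c d h hc
    have hd : Odd d := by
      obtain ⟨c', hc'⟩ := hc
      have e : a * d = 2 * (4 * b * c') + 1 := by
        have := h.1
        rw [hc'] at this
        linear_combination this
      exact (Int.odd_mul.1 ⟨_, e⟩).2
    obtain ⟨k, hk⟩ := sol8 b d hd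
    exact (hTk h k).1 (h0 _ _ _ _ (G0_T h k) (dvd_trans ⟨2, by norm_num⟩ hk) hc)
  -- the inversion
  have s2 : ∀ a b c d : ℤ, G0 M a b c d → ∃ a3 b3 c3 d3 : ℤ, G0 M a3 b3 c3 d3 ∧
      (Q a3 b3 c3 d3 ↔ Q a b c d) ∧ (8 : ℤ) ∣ a3 - c ∧ (8 : ℤ) ∣ c3 + a := by
    intro a b c d h
    have g1 := G0_T h (1 + M)
    obtain ⟨a1, ha1⟩ : ∃ a1, a1 = a + (1 + M) * c := ⟨_, rfl⟩
    obtain ⟨b1, hb1⟩ : ∃ b1, b1 = b + (1 + M) * d := ⟨_, rfl⟩
    rw [← ha1, ← hb1] at g1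
    have q1 := hTk h (1 + M)
    rw [← ha1, ← hb1] at q1
    have q2 := hG _ _ _ _ g1
    have g2 : G0 M ((1 - M) * a1 + c) ((1 - M) * b1 + d) (-M ^ 2 * a1 + (1 + M) * c)
        (-M ^ 2 * b1 + (1 + M) * d) := by
      refine ⟨by linear_combination g1.1, ?_⟩
      refine dvd_add ?_ (Dvd.dvd.mul_left g1.2 _)
      exact ⟨-M * a1, by ring⟩
    have q3 := hTk g2 (1 - M)
    refine ⟨_, _, _, _, G0_T g2 (1 - M), q3.trans (q2.trans q1), ?_, ?_⟩
    · refine ⟨-(q * c) - q * (1 - M) * a1, ?_⟩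
      linear_combination (-((1 - (M : ℤ)) * a1 + c)) * hq
    · refine ⟨-(q * a1), ?_⟩
      rw [ha1]
      linear_combination (-(a + (1 + (M : ℤ)) * c)) * hq
  -- `a` odd
  have s3 : ∀ a b c d : ℤ, G0 M a b c d → Odd a → Q a b c d := by
    intro a b c d h ha
    obtain ⟨a3, b3, c3, d3, g3, q3, h1, h2⟩ := s2 a b c d h
    have hc3 : Odd c3 := by
      obtain ⟨x, hx⟩ := h2
      obtain ⟨y, hy⟩ := ha
      exact ⟨4 * x - y - 1, by omega⟩
    obtain ⟨k, hk⟩ := sol8 a3 c3 hc3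
    have g4 := G0_T g3 k
    obtain ⟨a5, b5, c5, d5, g5, q5, h3, h4⟩ := s2 _ _ _ _ g4
    refine q3.1 ((hTk g3 k).1 (q5.1 (s1 _ _ _ _ g5 ?_)))
    exact (dvd_add_left hk).1 h4
  intro a b c d h
  rcases Int.even_or_odd a with ha | ha
  · have hc : Odd c := by
      rw [← Int.not_even_iff_odd]
      intro hc
      have h1 : (2 : ℤ) ∣ 1 := by
        rw [← h.1]
        exact dvd_sub (Dvd.dvd.mul_right ha.two_dvd d) (Dvd.dvd.mul_left hc.two_dvd b)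
      omega
    refine (hT a b c d h).1 (s3 _ _ _ _ ?_ (ha.add_odd hc))
    have := G0_T h 1
    rwa [one_mul, one_mul] at this
  · exact s3 a b c d h ha

/-- `T`, `G3` and the elements with `4 ∣ b`, `8 ∣ c`. -/
theorem genE (ho : Odd M)
    (h0 : ∀ a b c d : ℤ, G0 M a b c d → (4 : ℤ) ∣ b → (8 : ℤ) ∣ c → Q a b c d)
    (hT : ∀ a b c d : ℤ, G0 M a b c d → (Q (a + c) (b + d) c d ↔ Q a b c d))
    (hG : ∀ a b c d : ℤ, G0 M a b c d →
      (Q ((1 - 2 * M) * a + 2 * c) ((1 - 2 * M) * b + 2 * d) (-2 * M ^ 2 * a + (1 + 2 * M) * c)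
        (-2 * M ^ 2 * b + (1 + 2 * M) * d) ↔ Q a b c d)) :
    ∀ a b c d : ℤ, G0 M a b c d → Even c → Q a b c d := by
  have hTk : ∀ {a b c d : ℤ}, G0 M a b c d → ∀ k : ℤ, (Q (a + k * c) (b + k * d) c d ↔ Q a b c d) :=
    fun h k => pow_T (S := G0 M) (fun a b c d k h => G0_T h k) hT h k
  obtain ⟨q, hq⟩ := sq8 ho
  have hodd : ∀ {a b c d : ℤ}, G0 M a b c d → Even c → Odd a ∧ Odd d := by
    intro a b c d h hc
    obtain ⟨c', hc'⟩ := hc
    have e : a * d = 2 * (b * c') + 1 := by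
      have := h.1
      rw [hc'] at this
      linear_combination this
    exact Int.odd_mul.1 ⟨_, e⟩
  have g3 : ∀ {a b c d : ℤ}, G0 M a b c d → G0 M ((1 - 2 * M) * a + 2 * c) ((1 - 2 * M) * b + 2 * d)
      (-2 * M ^ 2 * a + (1 + 2 * M) * c) (-2 * M ^ 2 * b + (1 + 2 * M) * d) := by
    intro a b c d h
    refine ⟨by linear_combination h.1, ?_⟩
    refine dvd_add ?_ (Dvd.dvd.mul_left h.2 _)
    exact ⟨-2 * M * a, by ring⟩
  -- `c` divisible by `8`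
  have s1 : ∀ a b c d : ℤ, G0 M a b c d → (8 : ℤ) ∣ c → Q a b c d := by
    intro a b c d h hc
    obtain ⟨-, hd⟩ := hodd h (even_iff_two_dvd.2 (dvd_trans ⟨4, by norm_num⟩ hc))
    obtain ⟨k, hk⟩ := sol8 b d hd
    exact (hTk h k).1 (h0 _ _ _ _ (G0_T h k) (dvd_trans ⟨2, by norm_num⟩ hk) hc)
  obtain ⟨x, hx⟩ := ho
  have hMx : (M : ℤ) = 2 * x + 1 := by exact_mod_cast hx
  -- `c = 2` modulo `4`
  have s2 : ∀ a b c d : ℤ, G0 M a b c d → (4 : ℤ) ∣ c - 2 → Q a b c d := by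
    intro a b c d h hc
    obtain ⟨c', hc'⟩ : ∃ c', c = 2 * c' := ⟨c / 2, by omega⟩
    obtain ⟨u, hu⟩ : ∃ u, c' = 2 * u + 1 := ⟨c' / 2, by omega⟩
    obtain ⟨hao, -⟩ := hodd h ⟨c', by omega⟩
    obtain ⟨v, hv⟩ := hao
    -- the number `k`
    have hk : ∃ k : ℤ, (4 : ℤ) ∣ -(a + 2 * k * c') + (1 + 2 * M) * c' := by
      refine ⟨-(v + u + 1), 2 * u + 1 + x + 2 * x * u + (v + u + 1) * u, ?_⟩
      rw [hv, hu, hMx]
      ring
    obtain ⟨k, hk⟩ := hk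
    have g4 := G0_T h k
    refine (hTk h k).1 ((hG _ _ _ _ g4).1 (s1 _ _ _ _ (g3 g4) ?_))
    obtain ⟨y, hy⟩ := hk
    rw [hc']
    refine ⟨y - 2 * q * (a + k * (2 * c')), ?_⟩
    linear_combination 2 * hy - 2 * (a + k * (2 * c')) * hq
  intro a b c d h hc
  obtain ⟨hao, -⟩ := hodd h hc
  obtain ⟨c', hc'⟩ := hc
  obtain ⟨v, hv⟩ := hao
  rcases (by omega : c % 8 = 0 ∨ c % 8 = 4 ∨ c % 4 = 2) with h1 | h1 | h1
  · exact s1 a b c d h (Int.dvd_of_emod_eq_zero h1)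
  · refine (hG a b c d h).1 (s2 _ _ _ _ (g3 h) ?_)
    obtain ⟨y, hy⟩ : ∃ y, c = 8 * y + 4 := ⟨c / 8, by omega⟩
    refine ⟨-4 * q * (2 * v + 1) - v + 2 * y + 4 * M * y + 2 * M, ?_⟩
    rw [hy, hv]
    linear_combination (-2 * (2 * v + 1)) * hq
  · refine s2 a b c d h ?_
    omega

end gen

end Pool.Agent.DR
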