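import Pool.Agent.Lib.DR.CV.Abs

/-!
# Theorem DR, part CV, module Abs2: abstract symbols (author helper97)

`W` is a function on the rational numbers with denominators prime to `M`, with values in a ring; `X(r) = W(r) + W(-r)`.
-/

set_option autoImplicit false

noncomputable section

namespace Pool.Agent.DR

open Pool.Agent.DN
open DI.V (A2)

variable {F : Type} [CommRing F]

/-- The hypotheses on the function `W`. -/
structure Sb (M : ℕ) (W : ℚ → F) (ps : ℤ → F) : Prop where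
  T : ∀ r : ℚ, r.den.Coprime M → W (r + 1) = W r
  g : ∀ a b c d : ℤ, G0 M a b c d → (4 : ℤ) ∣ b → (8 : ℤ) ∣ c → ∀ r : ℚ, r.den.Coprime M →
    W ((a * r + b) / (c * r + d)) - W (b / d) = ps d * (W r - W 0)
  pc : ∀ d e : ℤ, IsCoprime d (M : ℤ) → (M : ℤ) ∣ d - e → ps d = ps e
  p1 : ps 1 = 1

/-- The transformation under `g`. -/
def HS (M : ℕ) (W : ℚ → F) (s : F) (a b c d : ℤ) : Prop :=
  ∀ r : ℚ, r.den.Coprime M → W ((a * r + b) / (c * r + d)) - W (b / d) = s * (W r - W 0)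

theorem cz (M : ℕ) : (0 : ℚ).den.Coprime M := by simp

theorem cadd {M : ℕ} {r : ℚ} (hr : r.den.Coprime M) (k : ℤ) : (r + k).den.Coprime M := by
  rwa [Rat.add_intCast_den]

theorem cadd1 {M : ℕ} {r : ℚ} (hr : r.den.Coprime M) : (r + 1).den.Coprime M := by
  have h := cadd hr 1
  rwa [Int.cast_one] at h

theorem cneg {M : ℕ} {r : ℚ} (hr : r.den.Coprime M) : (-r).den.Coprime M := by
  rwa [Rat.neg_den]

theorem chalf {M : ℕ} (hM : 2 ≤ M) (ho : Odd M) {r : ℚ} (hr : r.den.Coprime M) : (r / 2).den.Coprime M := by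
  have h1 : (r.num : ℚ) / (r.den : ℚ) = r := Rat.num_div_den r
  refine CV_den_coprime (p := r.num) (q := r.den * 2) ?_ hM ?_
  · refine IsCoprime.mul_left (Nat.isCoprime_iff_coprime.2 hr) ?_
    have := Nat.isCoprime_iff_coprime.2 (Nat.coprime_two_left.2 ho)
    exact_mod_cast this
  · push_cast
    rw [← div_div, h1]

theorem cdbl {M : ℕ} {r : ℚ} (hM : 2 ≤ M) (hr : r.den.Coprime M) : (2 * r).den.Coprime M := by
  have h1 : (r.num : ℚ) / (r.den : ℚ) = r := Rat.num_div_den r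
  refine CV_den_coprime (p := 2 * r.num) (q := r.den) (Nat.isCoprime_iff_coprime.2 hr) hM ?_
  push_cast
  rw [mul_div_assoc, h1]

theorem cmob {M : ℕ} (hM : 2 ≤ M) {a b c d : ℤ} (hG : G0 M a b c d) :
    (b / d : ℚ).den.Coprime M ∧ (d : ℚ) ≠ 0 := by
  obtain ⟨-, -, h1, h2⟩ := CV_mob hM hG (cz M)
  rw [mul_zero, zero_add] at h1 h2
  rw [mul_zero, zero_add] at h2
  exact ⟨h2, h1⟩

variable {M : ℕ} {W : ℚ → F} {ps : ℤ → F}

theorem Sb.Tk (h : Sb M W ps) (k : ℤ) {r : ℚ} (hr : r.den.Coprime M) : W (r + k) = W r := by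
  have hn : ∀ (k : ℕ) {r : ℚ}, r.den.Coprime M → W (r + k) = W r := by
    intro k
    induction k with
    | zero =>
      intro r _
      rw [Nat.cast_zero, add_zero]
    | succ k ih =>
      intro r hr
      rw [Nat.cast_succ, ← add_assoc, h.T _ ?_, ih hr]
      have := cadd hr (k : ℤ)
      rwa [Int.cast_natCast] at this
  rcases Int.eq_nat_or_neg k with ⟨j, rfl | rfl⟩
  · rw [Int.cast_natCast]
    exact hn j hr
  · have h1 := hn j (cadd hr (-(j : ℤ)))
    rw [Int.cast_neg, Int.cast_natCast, neg_add_cancel_right] at h1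
    rw [Int.cast_neg, Int.cast_natCast]
    exact h1.symm

/-- Translation on the left. -/
theorem Sb.hT (h : Sb M W ps) (hM : 2 ≤ M) {a b c d : ℤ} (hG : G0 M a b c d) (s : F) :
    HS M W s (a + c) (b + d) c d ↔ HS M W s a b c d := by
  have hG' : G0 M (a + c) (b + d) c d := ⟨by linear_combination hG.1, hG.2⟩
  obtain ⟨h3, h4⟩ := cmob hM hG
  have e2 : W (((b + d : ℤ) : ℚ) / d) = W (b / d) := by
    have f2 : (((b + d : ℤ) : ℚ)) / d = b / d + 1 := by
      rw [div_add_one h4]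
      push_cast
      rfl
    rw [f2, h.T _ h3]
  have e1 : ∀ r : ℚ, r.den.Coprime M →
      W ((((a + c : ℤ) : ℚ) * r + ((b + d : ℤ) : ℚ)) / (c * r + d)) = W ((a * r + b) / (c * r + d)) := by
    intro r hr
    obtain ⟨-, -, h1, h2⟩ := CV_mob hM hG hr
    have f1 : (((a + c : ℤ) : ℚ) * r + ((b + d : ℤ) : ℚ)) / (c * r + d) = (a * r + b) / (c * r + d) + 1 := by
      rw [div_add_one h1]
      push_cast
      congr 1
      ring
    rw [f1, h.T _ h2]
  unfold HS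
  rw [e2]
  constructor
  · intro H r hr
    rw [← e1 r hr]
    exact H r hr
  · intro H r hr
    rw [e1 r hr]
    exact H r hr

/-- An element `(p q; u v)` on the left under which `W` is invariant. -/
theorem HS.left (hM : 2 ≤ M) {p q u v : ℤ}
    (hW : ∀ s : ℚ, s.den.Coprime M → W ((p * s + q) / (u * s + v)) = W s) {a b c d : ℤ}
    (hG : G0 M a b c d) (s : F) :
    HS M W s (p * a + q * c) (p * b + q * d) (u * a + v * c) (u * b + v * d) ↔ HS M W s a b c d := by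
  obtain ⟨h3, h4⟩ := cmob hM hG
  have hq : ∀ x y : ℚ, y ≠ 0 → (p * x + q * y) / (u * x + v * y) = (p * (x / y) + q) / (u * (x / y) + v) := by
    intro x y hy
    have k1 : (p : ℚ) * (x / y) + q = (p * x + q * y) / y := by
      rw [eq_div_iff hy, add_mul, mul_assoc, div_mul_cancel₀ _ hy]
    have k2 : (u : ℚ) * (x / y) + v = (u * x + v * y) / y := by
      rw [eq_div_iff hy, add_mul, mul_assoc, div_mul_cancel₀ _ hy]
    rw [k1, k2, div_div_div_cancel_right₀ hy]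
  have e2 : W (((p * b + q * d : ℤ) : ℚ) / ((u * b + v * d : ℤ) : ℚ)) = W (b / d) := by
    have f : (((p * b + q * d : ℤ) : ℚ)) / ((u * b + v * d : ℤ) : ℚ) = (p * (b / d) + q) / (u * (b / d) + v) := by
      push_cast
      exact hq _ _ h4
    rw [f, hW _ h3]
  have e1 : ∀ r : ℚ, r.den.Coprime M →
      W ((((p * a + q * c : ℤ) : ℚ) * r + ((p * b + q * d : ℤ) : ℚ)) /
        (((u * a + v * c : ℤ) : ℚ) * r + ((u * b + v * d : ℤ) : ℚ))) = W ((a * r + b) / (c * r + d)) := by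
    intro r hr
    obtain ⟨-, -, h1, h2⟩ := CV_mob hM hG hr
    have f : (((p * a + q * c : ℤ) : ℚ) * r + ((p * b + q * d : ℤ) : ℚ)) /
        (((u * a + v * c : ℤ) : ℚ) * r + ((u * b + v * d : ℤ) : ℚ)) =
        (p * ((a * r + b) / (c * r + d)) + q) / (u * ((a * r + b) / (c * r + d)) + v) := by
      rw [← hq _ _ h1]
      push_cast
      congr 1 <;> ring
    rw [f, hW _ h2]
  unfold HS
  rw [e2]
  constructor
  · intro H r hr
    rw [← e1 r hr]
    exact H r hr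
  · intro H r hr
    rw [e1 r hr]
    exact H r hr

/-- `U⁻¹`. -/
theorem Uinv (hM : 2 ≤ M) {s : ℚ} (hs : s.den.Coprime M) : 1 - (M : ℚ) * s ≠ 0 ∧
    (s / (1 - M * s)).den.Coprime M := by
  have hGU : G0 M 1 0 (-(M : ℤ)) 1 := ⟨by ring, ⟨-1, by ring⟩⟩
  obtain ⟨-, -, hne, hs'⟩ := CV_mob hM hGU hs
  push_cast at hne hs'
  rw [one_mul, add_zero] at hs'
  have hne' : 1 - (M : ℚ) * s ≠ 0 := by
    intro h0
    apply hne
    linear_combination h0
  have es : s / (-(M : ℚ) * s + 1) = s / (1 - M * s) := by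
    congr 1
    ring
  rw [es] at hs'
  exact ⟨hne', hs'⟩

theorem Udir (hM : 2 ≤ M) {s : ℚ} (hs : s.den.Coprime M) : (M : ℚ) * s + 1 ≠ 0 ∧
    (s / (M * s + 1)).den.Coprime M := by
  have hGU : G0 M 1 0 (M : ℤ) 1 := ⟨by ring, dvd_rfl⟩
  obtain ⟨-, -, hne, hs'⟩ := CV_mob hM hGU hs
  push_cast at hne hs'
  rw [one_mul, add_zero] at hs'
  exact ⟨hne, hs'⟩

/-- `U T^k U⁻¹`. -/
theorem UTU (hM : 2 ≤ M) {s : ℚ} (hs : s.den.Coprime M) (k : ℚ) :
    (s / (1 - M * s) + k) / (M * (s / (1 - M * s) + k) + 1) =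
      ((1 - k * M) * s + k) / (-k * M ^ 2 * s + (1 + k * M)) ∧
    (s / (1 - M * s)) / (M * (s / (1 - M * s)) + 1) = s := by
  obtain ⟨h1, -⟩ := Uinv hM hs
  have e1 : s / (1 - M * s) + k = ((1 - k * M) * s + k) / (1 - M * s) := by
    rw [eq_div_iff h1, add_mul, div_mul_cancel₀ _ h1]
    ring
  have e2 : (M : ℚ) * (s / (1 - M * s) + k) + 1 = (-k * M ^ 2 * s + (1 + k * M)) / (1 - M * s) := by
    rw [eq_div_iff h1, add_mul, mul_assoc, add_mul, div_mul_cancel₀ _ h1]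
    ring
  have e3 : (M : ℚ) * (s / (1 - M * s)) + 1 = 1 / (1 - M * s) := by
    rw [eq_div_iff h1, add_mul, mul_assoc, div_mul_cancel₀ _ h1]
    ring
  refine ⟨?_, ?_⟩
  · rw [e1] at e2 ⊢
    rw [e2, div_div_div_cancel_right₀ h1]
  · rw [e3, div_div_div_cancel_right₀ h1, div_one]

/-- The transformation of the symmetrised function. -/
theorem HS.sym {s : F} {a b c d : ℤ} (h : HS M W s a b c d) (h' : HS M W s a (-b) (-c) d) :
    HS M (fun r => W r + W (-r)) s a b c d := by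
  intro r hr
  have e := h r hr
  have e' := h' (-r) (cneg hr)
  have e2 : ((a : ℚ) * -r + ((-b : ℤ) : ℚ)) / (((-c : ℤ) : ℚ) * -r + d) = -((a * r + b) / (c * r + d)) := by
    have e3 : ((-c : ℤ) : ℚ) * -r + d = c * r + d := by push_cast; ring
    have e4 : (a : ℚ) * -r + ((-b : ℤ) : ℚ) = -(a * r + b) := by push_cast; ring
    rw [e3, e4, neg_div]
  have e5 : ((-b : ℤ) : ℚ) / d = -(b / d) := by push_cast; rw [neg_div]
  rw [e2, e5] at e'
  change W ((a * r + b) / (c * r + d)) + W (-((a * r + b) / (c * r + d))) -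
    (W (b / d) + W (-(b / d))) = s * ((W r + W (-r)) - (W 0 + W (-0)))
  rw [neg_zero]
  linear_combination e + e'

/-- **The hidden symmetry for odd discriminant `4`.** -/
theorem Sb.odd (h : Sb M W ps) (hM : 3 ≤ M) (ho : Odd M)
    (hU : ∀ r : ℚ, r.den.Coprime M → W ((r + 1) / (M * (r + 1) + 1)) = W (r / (M * r + 1)))
    {a b c d : ℤ} (hG : G0 M a b c d) : HS M W (ps d) a b c d := by
  have hM2 : 2 ≤ M := by omega
  refine genO (Q := fun a b c d => HS M W (ps d) a b c d) ho (fun a b c d hG hb hc => h.g a b c d hG hb hc)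
    (fun a b c d hG => h.hT hM2 hG _) (fun a b c d hG => ?_) a b c d hG
  have hW : ∀ s : ℚ, s.den.Coprime M →
      W ((((1 - M : ℤ) : ℚ) * s + ((1 : ℤ) : ℚ)) / (((-M ^ 2 : ℤ) : ℚ) * s + ((1 + M : ℤ) : ℚ))) = W s := by
    intro s hs
    obtain ⟨e1, e2⟩ := UTU hM2 hs 1
    have e3 := hU _ (Uinv hM2 hs).2
    rw [e1, e2] at e3
    rw [← e3]
    push_cast
    congr 2 <;> ring
  have h1 := HS.left hM2 (p := 1 - M) (q := 1) (u := -M ^ 2) (v := 1 + M) hW hG (ps d)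
  rw [one_mul, one_mul] at h1
  obtain ⟨hd, -⟩ := CV_mob hM2 hG (cz M)
  have h2 : ps d = ps (-M ^ 2 * b + (1 + M) * d) := h.pc _ _ hd ⟨M * b - d, by ring⟩
  change HS M W (ps (-M ^ 2 * b + (1 + M) * d)) _ _ _ _ ↔ _
  rw [← h2]
  exact h1

/-- **The hidden symmetry for odd discriminant: constant symbols.** -/
theorem Sb.symO (h : Sb M W ps) (hM : 3 ≤ M) (ho : Odd M)
    (hU : ∀ r : ℚ, r.den.Coprime M → W ((r + 1) / (M * (r + 1) + 1)) = W (r / (M * r + 1)))
    (hA : ∀ (c : ℤ) (j : ℕ), W (c / 2 ^ j) + W (-(c / 2 ^ j)) = W 0 + W (-0)) {a b c d : ℤ}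
    (hG : G0 M a b c d) (hd : (M : ℤ) ∣ d - 1) : W (b / d) + W (-(b / d)) = W 0 + W (-0) := by
  refine thmV (E := fun r s => W r + W (-r) = W s + W (-s)) ho hM ⟨fun _ => rfl, fun h => h.symm,
    fun h h' => h.trans h'⟩ ?_ hG hd
  intro a b c d h1 h2 y hy
  have hG : G0 M a b c d := ⟨h1, h2⟩
  have hG' : G0 M a (-b) (-c) d := ⟨by linear_combination h1, (dvd_neg).2 h2⟩
  have h3 := HS.sym (h.odd hM ho hU hG) (h.odd hM ho hU hG') y (thmV_den ho hy)
  obtain ⟨u, j, rfl⟩ := hy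
  have h4 : (fun r => W r + W (-r)) (u / 2 ^ j) = (fun r => W r + W (-r)) 0 := hA u j
  rw [h4, sub_self, mul_zero, sub_eq_zero] at h3
  exact h3

/-- **The hidden symmetry for discriminant `8`.** -/
theorem Sb.even (h : Sb M W ps) (hM : 3 ≤ M) (ho : Odd M) {c0 : ℤ} {la : F}
    (hU : ∀ r : ℚ, r.den.Coprime M → W (r / (M * r + 1)) = la * (W ((r + c0) / 2) - W (c0 / 2)) + W 0)
    {a b c d : ℤ} (hG : G0 M a b c d) (hc : Even c) : HS M W (ps d) a b c d := by
  have hM2 : 2 ≤ M := by omega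
  refine genE (Q := fun a b c d => HS M W (ps d) a b c d) ho (fun a b c d hG hb hc => h.g a b c d hG hb hc)
    (fun a b c d hG => h.hT hM2 hG _) (fun a b c d hG => ?_) a b c d hG hc
  have hW : ∀ s : ℚ, s.den.Coprime M →
      W ((((1 - 2 * M : ℤ) : ℚ) * s + ((2 : ℤ) : ℚ)) / (((-2 * M ^ 2 : ℤ) : ℚ) * s + ((1 + 2 * M : ℤ) : ℚ))) =
        W s := by
    intro s hs
    obtain ⟨e1, e2⟩ := UTU hM2 hs 2
    have h0 := (Uinv hM2 hs).2
    have e3 := hU _ (cadd h0 2)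
    have e4 := hU _ h0
    rw [Int.cast_ofNat] at e3
    rw [e1] at e3
    rw [e2] at e4
    have e5 : (s / (1 - M * s) + 2 + c0) / 2 = (s / (1 - M * s) + c0) / 2 + 1 := by ring
    rw [e5, h.T _ (chalf hM2 ho (cadd h0 c0)), ← e4] at e3
    rw [← e3]
    push_cast
    congr 2 <;> ring
  have h1 := HS.left hM2 (p := 1 - 2 * M) (q := 2) (u := -2 * M ^ 2) (v := 1 + 2 * M)
    hW hG (ps d)
  obtain ⟨hd, -⟩ := CV_mob hM2 hG (cz M)
  have h2 : ps d = ps (-2 * M ^ 2 * b + (1 + 2 * M) * d) := h.pc _ _ hd ⟨2 * M * b - 2 * d, by ring⟩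
  change HS M W (ps (-2 * M ^ 2 * b + (1 + 2 * M) * d)) _ _ _ _ ↔ _
  rw [← h2]
  exact h1

/-- **The hidden symmetry for discriminant `8`: constant symbols.** -/
theorem Sb.symE (h : Sb M W ps) (hM : 3 ≤ M) (ho : Odd M) {c0 : ℤ} {la : F}
    (hU : ∀ r : ℚ, r.den.Coprime M → W (r / (M * r + 1)) = la * (W ((r + c0) / 2) - W (c0 / 2)) + W 0)
    (hA : ∀ (c : ℤ) (j : ℕ), W (c / 2 ^ j) + W (-(c / 2 ^ j)) = W 0 + W (-0)) {a b c d : ℤ}
    (hG : G0 M a b c d) (hd : (M : ℤ) ∣ d - 1) : W (b / d) + W (-(b / d)) = W 0 + W (-0) := by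
  have hM2 : 2 ≤ M := by omega
  have hM2' : ∀ {c : ℤ}, ((2 * M : ℕ) : ℤ) ∣ c → Even c ∧ (M : ℤ) ∣ c := by
    rintro c ⟨x, rfl⟩
    refine ⟨⟨M * x, by push_cast; ring⟩, ⟨2 * x, by push_cast; ring⟩⟩
  have hg : ∀ a b c d : ℤ, a * d - b * c = 1 → ((2 * M : ℕ) : ℤ) ∣ c →
      HS M (fun r => W r + W (-r)) (ps d) a b c d := by
    intro a b c d h1 h2
    obtain ⟨k1, k2⟩ := hM2' h2
    have hG : G0 M a b c d := ⟨h1, k2⟩
    have hG' : G0 M a (-b) (-c) d := ⟨by linear_combination h1, (dvd_neg).2 k2⟩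
    exact HS.sym (h.even hM ho hU hG k1) (h.even hM ho hU hG' k1.neg)
  have hA' : ∀ y : ℚ, A2 y → W y + W (-y) = W 0 + W (-0) := by
    rintro y ⟨u, j, rfl⟩
    exact hA u j
  refine thmV2 (E := fun r s => W r + W (-r) = W s + W (-s)) ho hM ⟨fun _ => rfl, fun h => h.symm,
    fun h h' => h.trans h'⟩ ?_ ?_ hG hd
  · intro a b c d h1 h2 y hy
    have h3 := hg a b c d h1 h2 y (thmV_den ho hy)
    have h4 : (fun r => W r + W (-r)) y = (fun r => W r + W (-r)) 0 := hA' y hy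
    rw [h4, sub_self, mul_zero, sub_eq_zero] at h3
    exact h3
  · intro a b c d h1 h2 y hy
    have hyd := thmV_den (M := M) ho hy
    obtain ⟨hne, hUy⟩ := Udir hM2 hyd
    have h3 := hg a b c d h1 h2 _ hUy
    -- the value at `U y`
    have hyc : (((-y) + c0) / 2).den.Coprime M := chalf hM2 ho (cadd (cneg hyd) c0)
    have k1 := hU y hyd
    have k2 := hU (-y) (cneg hyd)
    have k3 : W (-(y / (M * y + 1))) = W (-y / (M * -y + 1)) := by
      have hG2 : G0 M 1 0 (-(2 * M : ℤ)) 1 := ⟨by ring, ⟨-2, by ring⟩⟩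
      obtain ⟨hne2, hUy2⟩ := Udir hM2 (cneg hyd)
      have h5 := h.even hM ho hU hG2 ⟨-M, by ring⟩ _ hUy2
      rw [h.p1, one_mul] at h5
      have e1 : (((1 : ℤ) : ℚ) * (-y / (M * -y + 1)) + ((0 : ℤ) : ℚ)) /
          (((-(2 * M : ℤ) : ℤ) : ℚ) * (-y / (M * -y + 1)) + ((1 : ℤ) : ℚ)) = -(y / (M * y + 1)) := by
        have f1 : ((1 : ℤ) : ℚ) * (-y / (M * -y + 1)) + ((0 : ℤ) : ℚ) = (-y) / (M * -y + 1) := by
          rw [Int.cast_one, one_mul, Int.cast_zero, add_zero]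
        have f2 : ((-(2 * M : ℤ) : ℤ) : ℚ) * (-y / (M * -y + 1)) + ((1 : ℤ) : ℚ) =
            (M * y + 1) / (M * -y + 1) := by
          rw [eq_div_iff hne2, add_mul, mul_assoc, div_mul_cancel₀ _ hne2]
          push_cast
          ring
        rw [f1, f2, div_div_div_cancel_right₀ hne2, neg_div]
      rw [e1] at h5
      have e2 : W ((((0 : ℤ) : ℚ)) / ((1 : ℤ) : ℚ)) = W 0 := by
        rw [Int.cast_zero, zero_div]
      rw [e2] at h5
      linear_combination h5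
    have k4 : W (((-y) + c0) / 2) = W (-((y + c0) / 2)) := by
      have h5 := h.Tk (-c0) hyc
      rw [← h5]
      congr 1
      push_cast
      ring
    have k5 : W (-(c0 / 2)) = W (c0 / 2) := by
      have h6 : ((c0 : ℚ) / 2).den.Coprime M := by
        have h7 := chalf hM2 ho (cadd (cz M) c0)
        rwa [zero_add] at h7
      have h5 := h.Tk (-c0) h6
      rw [← h5]
      congr 1
      push_cast
      ring
    have hy1 : A2 ((y + c0) / 2) := by
      obtain ⟨u, j, rfl⟩ := hy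
      refine ⟨u + c0 * 2 ^ j, j + 1, ?_⟩
      push_cast
      have h8 : ((2 : ℚ) ^ j) ≠ 0 := pow_ne_zero j (by norm_num)
      rw [pow_succ]
      field_simp
    have hy2 : A2 ((c0 : ℚ) / 2) := ⟨c0, 1, by rw [pow_one]⟩
    have k6 := hA' _ hy1
    have k7 := hA' _ hy2
    have k8 : (fun r => W r + W (-r)) (y / (M * y + 1)) = (fun r => W r + W (-r)) 0 := by
      change W (y / (M * y + 1)) + W (-(y / (M * y + 1))) = W 0 + W (-0)
      rw [k3, k1, k2, k4]
      rw [k5] at k7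
      rw [neg_zero] at k6 k7 ⊢
      linear_combination la * k6 - la * k7
    rw [k8, sub_self, mul_zero, sub_eq_zero] at h3
    exact h3

end Pool.Agent.DR
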