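import Pool.Agent.Lib.DN.CV.V2
import Pool.Agent.Lib.DN.C.Ech
import Pool.Agent.Lib.DN.CV.Lw
import Pool.Agent.Lib.DN.B.All
import Pool.Agent.Lib.DS.G.RUp
import Pool.Agent.Lib.DS.G.Cop
import Pool.Agent.Lib.DR.IfaceC

/-!
# Theorem DR, part CV, module Bas: elementary facts, `S_Lw`, the class functions `E_b` (author helper97)
-/

set_option autoImplicit false

open scoped Pointwise nonZeroDivisors

noncomputable section

namespace Pool.Agent.DR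

open Pool.Agent.MuZ Pool.Agent.FW NumberField IsDedekindDomain Pool.Agent.DN
open Pool.Agent.DI (io ofC io_inj exists_io io_ofC ofC_io VP MP UP TP ex sqr sqr_sq kap)

variable {n t : ℕ}

/-! ## Parts of `S_O4` -/

theorem o4_pp [Rmf n t] (h : S_O4) (v : OO n t) : Cop v 2 ↔ v ∉ pp n t := (h n t).2.2.2.2.2.2.1 v

theorem o4_nm [Rmf n t] (h : S_O4) (v : OO n t) : Cop v 2 ↔ ¬ (2 : ℤ) ∣ Nm v := (h n t).2.2.2.2.2.2.2.1 v

theorem o4_mem [Rmf n t] (h : S_O4) (v : OO n t) :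
    v ∈ pp n t ↔ (2 : OO n t) ∣ v ∨ (2 : OO n t) ∣ v - pO n t := (h n t).2.2.2.2.2.2.2.2.1 v

theorem o4_unit [Rmf n t] (h : S_O4) (v : OO n t) :
    Cop v 2 ↔ (2 : OO n t) ∣ v - 1 ∨ (2 : OO n t) ∣ v - (1 + pO n t) := (h n t).2.2.2.2.2.2.2.2.2.2.1 v

theorem o4_sq [Rmf n t] (h : S_O4) {v : OO n t} (hv : Cop v 2) : (2 : OO n t) ∣ v ^ 2 - 1 :=
  (h n t).2.2.2.2.2.2.2.2.2.2.2.1 v hv

/-! ## The classes modulo `2` -/

theorem r_tm [Rmf n t] (hO4 : S_O4) {f : ℕ} (hf : Odd f) {α : OO n t} (h : α ∈ tm2 n t f) :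
    (f : OO n t) ∣ α - 1 ∧ Cop α 2 := by
  obtain ⟨j, hj⟩ := hf
  unfold tm2 at h
  rw [Finset.mem_insert, Finset.mem_singleton] at h
  rcases h with rfl | rfl
  · exact ⟨by rw [sub_self]; exact dvd_zero _, cop_one 2⟩
  · refine ⟨?_, ?_⟩
    · rw [nat_dvd_iff, QuadraticAlgebra.re_sub, QuadraticAlgebra.im_sub, re_one, im_one]
      exact ⟨⟨-((n % 2 : ℕ) : ℤ), by ring⟩, ⟨1, by ring⟩⟩
    · rw [o4_unit hO4]
      right
      have e : ((1 : OO n t) + pO n t).re = 1 + (n % 2 : ℕ) ∧ ((1 : OO n t) + pO n t).im = 1 := by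
        constructor
        · rw [QuadraticAlgebra.re_add, re_one]
          rfl
        · rw [QuadraticAlgebra.im_add, im_one, zero_add]
          rfl
      rw [← CV_cast_two, nat_dvd_iff, QuadraticAlgebra.re_sub, QuadraticAlgebra.im_sub, e.1, e.2]
      constructor
      · change ((2 : ℕ) : ℤ) ∣ 1 - (f : ℤ) * ((n % 2 : ℕ) : ℤ) - (1 + ((n % 2 : ℕ) : ℤ))
        refine ⟨-((j : ℤ) + 1) * ((n % 2 : ℕ) : ℤ), ?_⟩
        rw [hj]
        push_cast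
        ring
      · change ((2 : ℕ) : ℤ) ∣ (f : ℤ) - 1
        exact ⟨j, by rw [hj]; push_cast; ring⟩

theorem r_tm_uni {f : ℕ} (hf : Odd f) {α α' : OO n t} (h : α ∈ tm2 n t f) (h' : α' ∈ tm2 n t f)
    (hd : (2 : OO n t) ∣ α - α') : α = α' := by
  obtain ⟨j, hj⟩ := hf
  rw [← CV_cast_two, nat_dvd_iff, QuadraticAlgebra.re_sub, QuadraticAlgebra.im_sub] at hd
  have hd2 := hd.2
  unfold tm2 at h h'
  rw [Finset.mem_insert, Finset.mem_singleton] at h h'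
  rcases h with rfl | rfl <;> rcases h' with rfl | rfl
  · rfl
  · exfalso
    rw [im_one] at hd2
    change ((2 : ℕ) : ℤ) ∣ 0 - (f : ℤ) at hd2
    omega
  · exfalso
    rw [im_one] at hd2
    change ((2 : ℕ) : ℤ) ∣ (f : ℤ) - 0 at hd2
    omega
  · rfl

/-- The second element of `tm2`. -/
theorem r_al {f : ℕ} (hf : Odd f) : (⟨1 - f * (n % 2 : ℕ), f⟩ : OO n t) ∉ ({1} : Finset (OO n t)) := by
  rw [Finset.mem_singleton]
  intro h
  have h1 := congrArg QuadraticAlgebra.im h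
  rw [im_one] at h1
  change (f : ℤ) = 0 at h1
  have h2 := hf.pos
  omega

theorem r_tm_ex [Rmf n t] (hO4 : S_O4) {f : ℕ} (hf : Odd f) {v : OO n t} (hv : Cop v 2) :
    ∃ α ∈ tm2 n t f, (2 : OO n t) ∣ v - α := by
  obtain ⟨j, hj⟩ := hf
  rcases (o4_unit hO4 v).1 hv with h2 | h2
  · exact ⟨1, by unfold tm2; exact Finset.mem_insert_self _ _, h2⟩
  · refine ⟨⟨1 - f * (n % 2 : ℕ), f⟩, by unfold tm2; exact Finset.mem_insert_of_mem (Finset.mem_singleton_self _), ?_⟩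
    have e : ((1 : OO n t) + pO n t).re = 1 + (n % 2 : ℕ) ∧ ((1 : OO n t) + pO n t).im = 1 := by
      constructor
      · rw [QuadraticAlgebra.re_add, re_one]
        rfl
      · rw [QuadraticAlgebra.im_add, im_one, zero_add]
        rfl
    have h3 : (2 : OO n t) ∣ (1 + pO n t) - ⟨1 - f * (n % 2 : ℕ), f⟩ := by
      rw [← CV_cast_two, nat_dvd_iff, QuadraticAlgebra.re_sub, QuadraticAlgebra.im_sub, e.1, e.2]
      constructor
      · change ((2 : ℕ) : ℤ) ∣ (1 + ((n % 2 : ℕ) : ℤ)) - (1 - (f : ℤ) * ((n % 2 : ℕ) : ℤ))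
        refine ⟨((j : ℤ) + 1) * ((n % 2 : ℕ) : ℤ), ?_⟩
        rw [hj]
        push_cast
        ring
      · change ((2 : ℕ) : ℤ) ∣ 1 - (f : ℤ)
        exact ⟨-j, by rw [hj]; push_cast; ring⟩
    have h4 := dvd_add h2 h3
    rwa [sub_add_sub_cancel] at h4

theorem r_tm_rp [Rmf n t] (hO4 : S_O4) {f : ℕ} (hf : Odd f) :
    RpI (fun v : OO n t => (f : OO n t) ∣ v - 1 ∧ Cop v 2) (2 * f) (tm2 n t f) (fun v : OO n t => v) := by
  refine ⟨fun α hα => r_tm hO4 hf hα, fun α hα β hβ h => r_tm_uni hf hα hβ ?_, ?_⟩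
  · have h1 := CV_cast_dvd (Dvd.intro _ rfl : 2 ∣ 2 * f) h
    rwa [CV_cast_two] at h1
  · rintro v ⟨hv1, hv2⟩
    obtain ⟨α, hα, h1⟩ := r_tm_ex hO4 hf hv2
    refine ⟨α, hα, CV_cast_mul (Nat.coprime_two_left.2 hf) (by rwa [CV_cast_two]) ?_⟩
    have h2 := dvd_sub hv1 (r_tm hO4 hf hα).1
    rwa [sub_sub_sub_cancel_right] at h2

/-! ## Levels -/

theorem r_lv [SqN n t] {f M : ℕ} {m : Ideal (OO n t)} {R : Finset (Ideal (OO n t))} (h : IsLv f m R M)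
    {b : Ideal (OO n t)} (hb : b ∈ R) : IsLv f m {b} M := by
  refine ⟨h.odd, h.three, dvd_trans ?_ h.dvd⟩
  unfold lev
  rw [Finset.prod_singleton]
  exact mul_dvd_mul_left _ (pow_dvd_pow_of_dvd (mul_dvd_mul_left _ (Finset.dvd_prod_of_mem NI hb)) 3)

theorem r_lv2 [SqN n t] {f M : ℕ} {m : Ideal (OO n t)} {R : Finset (Ideal (OO n t))} (h : IsLv f m R M)
    {b b1 : Ideal (OO n t)} (hb : b ∈ R) (hb1 : b1 ∈ R) : IsLv f m {b, b1} M := by
  classical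
  refine ⟨h.odd, h.three, dvd_trans ?_ h.dvd⟩
  unfold lev
  refine mul_dvd_mul_left _ (pow_dvd_pow_of_dvd (mul_dvd_mul_left _ ?_) 3)
  refine Finset.prod_dvd_prod_of_subset _ _ _ ?_
  intro x hx
  rw [Finset.mem_insert, Finset.mem_singleton] at hx
  rcases hx with rfl | rfl
  · exact hb
  · exact hb1

theorem r_lvd [SqN n t] {f M : ℕ} {m : Ideal (OO n t)} {R : Finset (Ideal (OO n t))} (h : IsLv f m R M) :
    f ∣ M ∧ NI m ∣ M ∧ dO n ∣ M ∧ ∀ b ∈ R, NI b ∣ M := by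
  have h1 := h.dvd
  unfold lev at h1
  refine ⟨dvd_trans ?_ h1, dvd_trans ?_ h1, dvd_trans ?_ h1, fun b hb => dvd_trans ?_ h1⟩
  · exact Dvd.dvd.mul_right (Dvd.intro_left (dO n * f) (by ring)) _
  · exact Dvd.dvd.mul_left (dvd_pow (Dvd.intro _ rfl) (by norm_num)) _
  · exact Dvd.dvd.mul_right (Dvd.intro _ rfl) _
  · exact Dvd.dvd.mul_left (dvd_pow (Dvd.dvd.mul_left (Finset.dvd_prod_of_mem NI hb) _) (by norm_num)) _

theorem r_dO [h : Rmf n t] (hO4 : S_O4) : Odd (dO n) := by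
  have h1 := (hO4 n t).1
  unfold dO
  rw [Nat.odd_iff]
  split_ifs <;> omega

/-- **`S_Lw`.** -/
theorem sLw (hO4 : S_O4) : S_Lw := by
  intro n t _ f m R hm hR
  have hf0 := hm.odd.pos
  obtain ⟨R2, hR2⟩ := (aO7 n t (2 * f) (by omega)).2.2.2.2.2.2.2.2.2.2
  have hFR2 : FR f R2 := fun b hb => ⟨(hR2.mem b hb).1, (hR2.mem b hb).2⟩
  have hodd : ∀ {R : Finset (Ideal (OO n t))}, FR f R → Odd (lev f m R) := by
    intro R hR
    unfold lev
    refine ((r_dO (t := t) hO4).mul hm.odd.pow).mul (Odd.pow ((CV_NI_odd hm.two).mul (Lw_prod fun b hb => ?_)))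
    exact CV_pri_dvd (hR b hb).cop (Dvd.intro _ rfl)
  have ho : Odd (lev f m R * lev f m R2) := (hodd hR).mul (hodd hFR2)
  have hf15 : 15 ≤ f := Nat.le_of_dvd hf0 hm.dvd
  have hfd : f ∣ lev f m R * lev f m R2 := by
    unfold lev
    exact Dvd.dvd.mul_right (Dvd.dvd.mul_right (Dvd.dvd.mul_left (dvd_pow_self f (by norm_num)) _) _) _
  have h3 : 3 ≤ lev f m R * lev f m R2 := le_trans (by omega) (Nat.le_of_dvd ho.pos hfd)
  exact ⟨lev f m R * lev f m R2, ⟨ho, h3, Dvd.intro _ rfl⟩, R2, hFR2, hR2, ho, h3, Dvd.intro_left _ rfl⟩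

/-! ## The functions `E_b` -/

/-- Lifting from the modulus `f` to `2 f`. -/
theorem r_lift [SqN n t] {f : ℕ} (hf : 0 < f) {b b' : Ideal (OO n t)} (hb : FB f b) (hb' : FB f b')
    (h : Ray f b b') : ∃ γ : OO n t, (f : OO n t) ∣ γ - 1 ∧ Cop γ 2 ∧ Ray (2 * f) b' (sp γ * b) := by
  have e : f * 2 = 2 * f := by ring
  have h1 := hb.cop
  have h2 := hb'.cop
  rw [← e] at h1 h2
  obtain ⟨γ, -, h3, h4, h5⟩ := DS.G.tRUp aO6 DS.G.tCop n t f 2 b b' hf (by norm_num) hb.ne hb'.ne h1 h2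
    (V1_ray_symm hf h)
  rw [e] at h5
  exact ⟨γ, h3, cop_dvd h4 (Dvd.intro_left _ rfl), h5⟩

/-- `E_b` depends only on the class modulo `2 f`. -/
theorem r_E_ray [Rmf n t] (hO4 : S_O4) (hC6 : S_C6) {f : ℕ} {m b b' : Ideal (OO n t)} (hm : FM f m)
    (hb : FB f b) (hb' : FB f b') (h : Ray (2 * f) b b') (r : ℚ) : etE f m b r = etE f m b' r := by
  have hf0 := hm.odd.pos
  unfold etE
  refine Finset.sum_congr rfl fun α hα => ?_
  obtain ⟨h1, h2⟩ := r_tm hO4 hm.odd hα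
  have hA := CV_fb_sp hf0 (V1_cop2f h1 h2)
  exact ((hC6 n t f m _ hm (CV_fb_mul hA hb)).1 _ (CV_fb_mul hA hb')
    (V1_ray_mul (by omega) (V1_ray_refl (by omega) _) h)).2 (r / 4)

/-- `E_(γ b)`, `γ = 1` modulo `f`, odd. -/
theorem r_E_mul [Rmf n t] (hO4 : S_O4) (hC6 : S_C6) {f : ℕ} {m b : Ideal (OO n t)} (hm : FM f m)
    (hb : FB f b) {γ : OO n t} (h1 : (f : OO n t) ∣ γ - 1) (h2 : Cop γ 2) (r : ℚ) :
    etE f m (sp γ * b) r = etE f m b r := by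
  have hf0 := hm.odd.pos
  have hc := V1_cop2f h1 h2
  obtain ⟨δ, hδ, hγδ⟩ := cop_inv hc
  have hδ2 : Cop δ 2 := cop_dvd hδ (Dvd.intro _ rfl)
  have hδ1 : (f : OO n t) ∣ δ - 1 := by
    have h3 := CV_cast_dvd (Dvd.intro_left _ rfl : f ∣ 2 * f) hγδ
    have e : δ - 1 = (γ * δ - 1) - δ * (γ - 1) := by ring
    rw [e]
    exact dvd_sub h3 (dvd_mul_of_dvd_right h1 _)
  have hQ : ∀ {a : OO n t}, (f : OO n t) ∣ a - 1 → Cop a 2 → ∀ v : OO n t,
      ((f : OO n t) ∣ v - 1 ∧ Cop v 2) → ((f : OO n t) ∣ a * v - 1 ∧ Cop (a * v) 2) := by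
    rintro a ha1 ha2 v ⟨hv1, hv2⟩
    refine ⟨?_, cop_mul ha2 hv2⟩
    have e : a * v - 1 = a * (v - 1) + (a - 1) := by ring
    rw [e]
    exact dvd_add (dvd_mul_of_dvd_right hv1 _) ha1
  have hrp := r_tm_rp (n := n) (t := t) hO4 hm.odd
  have hrp2 := hrp.mul hc hγδ (hQ h1 h2) (hQ hδ1 hδ2)
  have key := RpI.sum hrp2 hrp (fun v : OO n t => etaM (2 * f) m (sp v * b) (r / 4)) ?_
  · unfold etE
    refine Eq.trans ?_ key
    refine Finset.sum_congr rfl fun α hα => ?_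
    have e1 : sp α * (sp γ * b) = sp (γ * α) * b := by
      rw [← CV_sp_mul]
      ring
    rw [e1]
  · rintro v u ⟨hv1, hv2⟩ ⟨hu1, hu2⟩ hvu
    have hv3 := V1_cop2f hv1 hv2
    have hu3 := V1_cop2f hu1 hu2
    exact ((hC6 n t f m _ hm (CV_fb_mul (CV_fb_sp hf0 hv3) hb)).1 _ (CV_fb_mul (CV_fb_sp hf0 hu3) hb)
      (V1_ray_mul (by omega) (V1_ray_congr (by omega) hv3 hu3 hvu) (V1_ray_refl (by omega) _))).2 (r / 4)

/-- `E_b` depends only on the class modulo `f`. -/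
theorem r_E_cls [Rmf n t] (hO4 : S_O4) (hC6 : S_C6) {f : ℕ} {m b b' : Ideal (OO n t)} (hm : FM f m)
    (hb : FB f b) (hb' : FB f b') (h : Ray f b b') (r : ℚ) : etE f m b r = etE f m b' r := by
  have hf0 := hm.odd.pos
  obtain ⟨γ, h1, h2, h3⟩ := r_lift hf0 hb hb' h
  have hγ := CV_fb_sp hf0 (V1_cop2f h1 h2)
  rw [r_E_ray hO4 hC6 hm hb' (CV_fb_mul hγ hb) h3, r_E_mul hO4 hC6 hm hb h1 h2]

/-! ## The framings -/

/-- `fr(γ b) = γ fr(b)`. -/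
theorem r_fr [SqN n t] {b : Ideal (OO n t)} (hb : G15 b) {γ : OO n t}
    (h15 : (15 : OO n t) ∣ γ - 1) : fr (sp γ * b) = toC γ * fr b :=
  (((aB7 n t b hb.ne).2.2 hb.cop).1 γ (CV_ne_of_cop (N := 15) (by norm_num) (V1_15 h15))
    (dvd_trans ⟨5, by norm_num⟩ h15) (Or.inl (dvd_trans ⟨3, by norm_num⟩ h15))).1

theorem r_rO [Rmf n t] (hR1 : S_R1) {b b' : Ideal (OO n t)} (hb : G15 b) (hb' : G15 b') :
    io (rO b b') = fr b' / fr b ∧ fr b ≠ 0 ∧ fr b' ≠ 0 := by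
  obtain ⟨h1, h2⟩ := ((hR1.1 n t).1 b hb).2.2.2 b' hb'
  have h3 : io (rO b b') ≠ 0 := fun h => h2 (io_inj (by rw [h, map_zero]))
  rw [h1] at h3
  refine ⟨h1, ?_, ?_⟩
  · intro h
    rw [h, div_zero] at h3
    exact h3 rfl
  · intro h
    rw [h, zero_div] at h3
    exact h3 rfl

/-- Cocycle. -/
theorem r_rO_trans [Rmf n t] (hR1 : S_R1) {a b c : Ideal (OO n t)} (ha : G15 a) (hb : G15 b) (hc : G15 c) :
    rO a c = rO a b * rO b c := by
  obtain ⟨k1, k2, k3⟩ := r_rO hR1 ha hc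
  obtain ⟨k4, -, k6⟩ := r_rO hR1 ha hb
  obtain ⟨k7, -, -⟩ := r_rO hR1 hb hc
  apply io_inj
  rw [map_mul, k1, k4, k7]
  field_simp

/-- `rO c (γ b) = γ rO c b`. -/
theorem r_rO_mul [Rmf n t] (hR1 : S_R1) {c b : Ideal (OO n t)} (hc : G15 c) (hb : G15 b)
    {γ : OO n t} (h15 : (15 : OO n t) ∣ γ - 1) : rO c (sp γ * b) = toO γ * rO c b := by
  apply io_inj
  rw [map_mul, io_toO, (r_rO hR1 hc hb).1, (r_rO hR1 hc (V1_G15_mul (V1_G15_sp h15) hb)).1, r_fr hb h15]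
  ring

/-- Ratio of the framings: it depends only on the class of `b` modulo `15`. -/
theorem r_rO_ratio [Rmf n t] (hR1 : S_R1) {a b b' : Ideal (OO n t)} (ha : G15 a) (hb : G15 b)
    (hb' : G15 b') {β β' : OO n t} (h15 : (15 : OO n t) ∣ β - 1) (h15' : (15 : OO n t) ∣ β' - 1)
    (h : sp β * b = sp β' * b') : rO b (a * b) = rO b' (a * b') := by
  have hβ : toC β ≠ 0 := toC_ne (CV_ne_of_cop (N := 15) (by norm_num) (V1_15 h15))
  have hβ' : toC β' ≠ 0 := toC_ne (CV_ne_of_cop (N := 15) (by norm_num) (V1_15 h15'))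
  obtain ⟨h1, h2, h3⟩ := r_rO hR1 hb (V1_G15_mul ha hb)
  obtain ⟨h1', h2', h3'⟩ := r_rO hR1 hb' (V1_G15_mul ha hb')
  apply io_inj
  rw [h1, h1']
  have e1 := r_fr hb h15
  have e2 := r_fr hb' h15'
  have e3 := r_fr (V1_G15_mul ha hb) h15
  have e4 := r_fr (V1_G15_mul ha hb') h15'
  have e5 : sp β * (a * b) = sp β' * (a * b') := by
    calc sp β * (a * b) = a * (sp β * b) := by ring
      _ = a * (sp β' * b') := by rw [h]
      _ = sp β' * (a * b') := by ring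
  rw [e5, e4] at e3
  rw [h, e2] at e1
  rw [div_eq_div_iff h2 h2']
  apply mul_left_cancel₀ hβ
  apply mul_left_cancel₀ hβ'
  linear_combination (-(toC β' * fr b')) * e3 + toC β' * fr (a * b') * e1

theorem r_G15_top [SqN n t] : G15 (⊤ : Ideal (OO n t)) := ⟨(CV_fb_top (n := n) (t := t) 1).ne, CV_top _⟩

theorem r_15f {f : ℕ} (h15 : 15 ∣ f) {v : OO n t} (hv : (f : OO n t) ∣ v - 1) : (15 : OO n t) ∣ v - 1 := by
  have h8 := CV_cast_dvd h15 hv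
  have e4 : (((15 : ℕ) : OO n t)) = 15 := by norm_num
  rwa [e4] at h8

/-! ## Characters -/

/-- A character of odd order is trivial on the `γ = 1` modulo `f`. -/
theorem r_chi [Rmf n t] (hO4 : S_O4) {f : ℕ} (hf : Odd f) {χ : Ideal (OO n t) → Om} (h : IsChi (2 * f) χ)
    {P : Ideal ZZ} (hP : P.IsPrime) {γ : OO n t} (h1 : (f : OO n t) ∣ γ - 1) (h2 : Cop γ 2) : χ (sp γ) = 1 := by
  have hf0 := hf.pos
  have h3 := V1_cop2f h1 h2
  have h4 : ((2 * f : ℕ) : OO n t) ∣ γ * γ - 1 := by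
    refine CV_cast_mul (Nat.coprime_two_left.2 hf) ?_ ?_
    · rw [CV_cast_two, ← pow_two]
      exact o4_sq hO4 h2
    · have e : γ * γ - 1 = γ * (γ - 1) + (γ - 1) := by ring
      rw [e]
      exact dvd_add (dvd_mul_of_dvd_right h1 _) h1
  have h5 : χ (sp γ) * χ (sp γ) = 1 := by
    rw [← h.mul, CV_sp_mul, ← V2_top h hP]
    have h6 : Cop (γ * γ) (2 * f) := CV_cop_of_dvd h4
    rw [V2_ray h (CV_fb_sp hf0 h6) (CV_fb_top f) ?_]
    have h7 := V1_ray_congr (by omega) h6 (cop_one (2 * f)) h4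
    rwa [CV_sp_one] at h7
  obtain ⟨m, hm, h6⟩ := h.odd
  have h7 := h6 (sp γ) (CV_fb_sp hf0 h3).ne (CV_fb_sp hf0 h3).cop
  obtain ⟨j, rfl⟩ := hm
  rw [pow_succ, pow_mul, pow_two, h5, one_pow, one_mul] at h7
  exact h7

/-- A character of odd order depends only on the class modulo `f`. -/
theorem r_chi_ray [Rmf n t] (hO4 : S_O4) {f : ℕ} (hf : Odd f) {χ : Ideal (OO n t) → Om}
    (h : IsChi (2 * f) χ) {P : Ideal ZZ} (hP : P.IsPrime) {b b' : Ideal (OO n t)} (hb : FB f b)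
    (hb' : FB f b') (hr : Ray f b b') : χ b = χ b' := by
  have hf0 := hf.pos
  obtain ⟨γ, h1, h2, h3⟩ := r_lift hf0 hb hb' hr
  have hγ := CV_fb_sp hf0 (V1_cop2f h1 h2)
  rw [V2_ray h hb' (CV_fb_mul hγ hb) h3, h.mul, r_chi hO4 hf h hP h1 h2, one_mul]

end Pool.Agent.DR
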