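import Pool.Agent.Lib.DN.CV.C10
import Pool.Agent.Lib.DN.B.All
import Pool.Agent.Lib.DR.IfaceC
import Pool.Agent.Lib.DR.O.O4

/-!
# Theorem DR, part CV, module BasB: elementary facts (author helper28, a port of `DN/CV/Bas.lean` of helper97)

The general lemmas of `DN/CV/Bas.lean` (`CV_...`) are used as they are.
-/

set_option autoImplicit false

open scoped Pointwise nonZeroDivisors

noncomputable section

namespace Pool.Agent.DR

open Pool.Agent.MuZ Pool.Agent.FW NumberField IsDedekindDomain Pool.Agent.DN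
open Pool.Agent.DI (io ofC io_inj exists_io io_ofC ofC_io VP MP UP TP ex sqr sqr_sq kap)

variable {n t : ℕ}

/-! ## The classes modulo `2` -/

/-- The second element of `tm2`. -/
def ta (n t f : ℕ) : OO n t := ⟨1 - f * (n % 2 : ℕ), f⟩

theorem ta_eq (f : ℕ) : ta n t f = 1 + (f : OO n t) * (pO n t - 2 * ((n % 2 : ℕ) : OO n t)) := by
  have e1 : (1 : OO n t).re = 1 := rfl
  have e2 : (1 : OO n t).im = 0 := rfl
  have e3 : (2 : OO n t) * ((n % 2 : ℕ) : OO n t) = ((2 * (n % 2) : ℕ) : OO n t) := by push_cast; ring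
  rw [e3]
  apply ext'
  · rw [QuadraticAlgebra.re_add, re_mul, re_nat, im_nat, QuadraticAlgebra.re_sub, re_nat, e1]
    unfold ta pO
    push_cast
    ring
  · rw [QuadraticAlgebra.im_add, im_mul, re_nat, im_nat, QuadraticAlgebra.im_sub, im_nat, e2]
    unfold ta pO
    push_cast
    ring

theorem tm_mem {f : ℕ} {α : OO n t} : α ∈ tm2 n t f ↔ α = 1 ∨ α = ta n t f := by
  classical
  unfold tm2 ta
  simp only [Finset.mem_insert, Finset.mem_singleton]

theorem w_tm [Rmf n t] {f : ℕ} (hf : Odd f) {α : OO n t} (h : α ∈ tm2 n t f) :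
    (f : OO n t) ∣ α - 1 ∧ Cop α 2 := by
  constructor
  · rcases tm_mem.1 h with rfl | rfl
    · rw [sub_self]
      exact dvd_zero _
    · rw [ta_eq]
      exact ⟨pO n t - 2 * ((n % 2 : ℕ) : OO n t), by ring⟩
  · obtain ⟨j, hj⟩ := hf
    obtain ⟨-, -, -, -, -, -, -, -, -, -, h11, -⟩ := sO4 n t
    refine (h11 α).2 ?_
    rcases tm_mem.1 h with rfl | rfl
    · left
      rw [sub_self]
      exact dvd_zero _
    · right
      rw [ta_eq, hj]
      refine ⟨j * pO n t - (2 * j + 1) * ((n % 2 : ℕ) : OO n t), ?_⟩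
      push_cast
      ring

theorem w_tm_cop [Rmf n t] {f : ℕ} (hf : Odd f) {α : OO n t} (h : α ∈ tm2 n t f) : Cop α (2 * f) :=
  CV_cop_mul.2 ⟨(w_tm hf h).2, CV_cop_of_dvd (w_tm hf h).1⟩

theorem w_tm_uni {f : ℕ} (hf : Odd f) {α α' : OO n t} (h : α ∈ tm2 n t f) (h' : α' ∈ tm2 n t f)
    (hd : (2 : OO n t) ∣ α - α') : α = α' := by
  obtain ⟨j, hj⟩ := hf
  rw [← CV_cast_two, nat_dvd_iff] at hd
  obtain ⟨-, h5⟩ := hd
  have h7 : (2 : ℤ) ∣ α.im - α'.im := by exact_mod_cast h5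
  have e2 : (1 : OO n t).im = 0 := rfl
  have e3 : (ta n t f).im = f := rfl
  rcases tm_mem.1 h with rfl | rfl <;> rcases tm_mem.1 h' with rfl | rfl
  · rfl
  · rw [e2, e3] at h7
    omega
  · rw [e2, e3] at h7
    omega
  · rfl

/-- Every `v` prime to `2` is congruent modulo `2` to an element of `tm2`. -/
theorem w_tm_ex [Rmf n t] {f : ℕ} (hf : Odd f) {v : OO n t} (h2 : Cop v 2) :
    ∃ α ∈ tm2 n t f, (2 : OO n t) ∣ v - α := by
  obtain ⟨j, hj⟩ := id hf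
  have hj' : (f : OO n t) = 2 * j + 1 := by
    rw [hj]
    push_cast
    ring
  obtain ⟨-, -, -, -, -, -, -, -, -, -, h11, -⟩ := sO4 n t
  rcases (h11 v).1 h2 with h3 | h3
  · exact ⟨1, tm_mem.2 (Or.inl rfl), h3⟩
  · refine ⟨ta n t f, tm_mem.2 (Or.inr rfl), ?_⟩
    have e : v - ta n t f = (v - (1 + pO n t)) - 2 * (j * pO n t -
        (2 * j + 1) * ((n % 2 : ℕ) : OO n t)) := by
      rw [ta_eq, hj']
      ring
    rw [e]
    exact dvd_sub h3 (Dvd.intro _ rfl)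

/-! ## Levels -/

theorem w_lv [SqN n t] {f M : ℕ} {m : Ideal (OO n t)} {R : Finset (Ideal (OO n t))} (h : IsLv f m R M)
    {b : Ideal (OO n t)} (hb : b ∈ R) : IsLv f m {b} M := by
  refine ⟨h.odd, h.three, dvd_trans ?_ h.dvd⟩
  unfold lev
  rw [Finset.prod_singleton]
  exact mul_dvd_mul_left _ (pow_dvd_pow_of_dvd (mul_dvd_mul_left _ (Finset.dvd_prod_of_mem NI hb)) 3)

theorem w_lvd [SqN n t] {f M : ℕ} {m : Ideal (OO n t)} {R : Finset (Ideal (OO n t))} (h : IsLv f m R M) :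
    f ∣ M ∧ NI m ∣ M ∧ dO n ∣ M ∧ ∀ b ∈ R, NI b ∣ M := by
  have h1 := h.dvd
  unfold lev at h1
  refine ⟨dvd_trans ?_ h1, dvd_trans ?_ h1, dvd_trans ?_ h1, fun b hb => dvd_trans ?_ h1⟩
  · exact Dvd.dvd.mul_right (Dvd.intro_left (dO n * f) (by ring)) _
  · exact Dvd.dvd.mul_left (dvd_pow (Dvd.intro _ rfl) (by norm_num)) _
  · exact Dvd.dvd.mul_right (Dvd.intro _ rfl) _
  · exact Dvd.dvd.mul_left (dvd_pow (Dvd.dvd.mul_left (Finset.dvd_prod_of_mem NI hb) _) (by norm_num)) _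

/-- `pO` at the primes above `2`. -/
theorem w_pO [Rmf n t] (hT0 : S_T0) {P : Ideal ZZ} (hP : Ab2 P) :
    UP P (toO (pO n t) ^ 2 / 2) ∧ MP P (toO (pO n t)) ∧ toO (pO n t) ≠ 0 := by
  have hPp := hP.1.1
  obtain ⟨h1, h2, -⟩ := hT0 n t P hP
  refine ⟨h1, h2, fun h => ?_⟩
  rw [h] at h1
  have h3 := h1.ne_zero
  apply h3
  norm_num

end Pool.Agent.DR
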