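import Pool.Agent.Lib.DN.CV.Lw
import Pool.Agent.Lib.DR.IfaceC
import Pool.Agent.Lib.DR.O.O4

/-!
# Theorem DR, part CV, module Lw: levels exist, `S_Lw` (author helper28, port of helper97)
-/

set_option autoImplicit false

open scoped Pointwise nonZeroDivisors

noncomputable section

namespace Pool.Agent.DR

open Pool.Agent.MuZ Pool.Agent.FW NumberField IsDedekindDomain Pool.Agent.DN

variable {n t : ℕ}

theorem dO_odd [Rmf n t] : Odd (dO n) := by
  have h := rm_mod (n := n) (t := t)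
  unfold dO
  rw [Nat.odd_iff]
  split_ifs with h2 <;> omega

theorem Lw_odd [Rmf n t] {f : ℕ} {m : Ideal (OO n t)} {R : Finset (Ideal (OO n t))} (hm : FM f m)
    (hR : FR f R) : Odd (lev f m R) := by
  unfold lev
  refine ((dO_odd (n := n) (t := t)).mul hm.odd.pow).mul (Odd.pow ((CV_NI_odd hm.two).mul (Lw_prod fun b hb => ?_)))
  exact CV_pri_dvd (hR b hb).cop (Dvd.intro _ rfl)

/-- **`S_Lw`.** -/
theorem sLw : S_Lw := by
  intro n t _ f m R hm hR
  have hf0 := hm.odd.pos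
  obtain ⟨R2, hR2⟩ := (aO7 n t (2 * f) (by omega)).2.2.2.2.2.2.2.2.2.2
  have hFR2 : FR f R2 := fun b hb => ⟨(hR2.mem b hb).1, (hR2.mem b hb).2⟩
  have ho : Odd (lev f m R * lev f m R2) := (Lw_odd hm hR).mul (Lw_odd hm hFR2)
  have hf15 : 15 ≤ f := Nat.le_of_dvd hf0 hm.dvd
  have hfd : f ∣ lev f m R * lev f m R2 := by
    unfold lev
    exact Dvd.dvd.mul_right (Dvd.dvd.mul_right (Dvd.dvd.mul_left (dvd_pow_self f (by norm_num)) _) _) _
  have h3 : 3 ≤ lev f m R * lev f m R2 := le_trans (by omega) (Nat.le_of_dvd ho.pos hfd)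
  exact ⟨lev f m R * lev f m R2, ⟨ho, h3, Dvd.intro _ rfl⟩, R2, hFR2, hR2, ho, h3, Dvd.intro_left _ rfl⟩

end Pool.Agent.DR
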