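import Pool.Agent.Lib.DR.CV.BasB

/-!
# Theorem DR, part CV, module Phi: the terms of the sums (author helper28, port of helper97)
-/

set_option autoImplicit false

open scoped Pointwise nonZeroDivisors

noncomputable section

namespace Pool.Agent.DR

open Pool.Agent.MuZ Pool.Agent.FW NumberField IsDedekindDomain Pool.Agent.DN
open Pool.Agent.DI (io ofC io_inj exists_io io_ofC ofC_io VP MP UP TP ex sqr sqr_sq kap)

variable {n t : ℕ}

/-- The term with index `v`. -/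
def pt (m b : Ideal (OO n t)) (c : ℤ) (q F : ℕ) (v : OO n t) : Om :=
  zet q ^ (c * (NI m * NI b * Nm v)) * gO m b (toC v / (F : ℂ))

/-! ## The function `g` -/

theorem gO_per [SqN n t] {m b : Ideal (OO n t)} (hm : m ≠ ⊥) (hb : b ≠ ⊥) {z l : ℂ}
    (hl : l ∈ Lam b) : gO m b (z + l) = gO m b z := by
  unfold gO gC
  rw [(DN.aB10 n t (m * b) (mul_ne_zero hm hb)).2.1 z l (lam_mono hl), (DN.aB10 n t b hb).2.1 z l hl]

theorem gO_hom [SqN n t] {m b : Ideal (OO n t)} (hm : m ≠ ⊥) (hb : G15 b) {α : OO n t}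
    (h0 : α ≠ 0) (hα : (15 : OO n t) ∣ α - 1) (z : ℂ) : gO m (sp α * b) z = gO m b (toC α * z) := by
  have h3 : (3 : OO n t) ∣ α - 1 := dvd_trans ⟨5, by norm_num⟩ hα
  have h5 : (5 : OO n t) ∣ α - 1 := dvd_trans ⟨3, by norm_num⟩ hα
  have e1 : m * (sp α * b) = sp α * (m * b) := by ring
  have h6 := (((DN.aB7 n t b hb.ne).2.2 hb.cop).1 α h0 h3 (Or.inl h5)).1
  have h7 := ((DN.aB7 n t (m * b) (mul_ne_zero hm hb.ne)).1 α h0).1 z
  have h8 := ((DN.aB7 n t b hb.ne).1 α h0).1 z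
  have hα0 := toC_ne h0
  unfold gO gC
  rw [e1, h6, h7.2.2, h8.2.2]
  congr 1
  have e2 : toC α * KC (m * b) (toC α * z) - NI m * (toC α * KC b (toC α * z)) =
      toC α * (KC (m * b) (toC α * z) - NI m * KC b (toC α * z)) := by ring
  rw [e2, mul_div_mul_left _ _ hα0]

/-! ## Period -/

theorem pt_per [SqN n t] {m b : Ideal (OO n t)} (hm : m ≠ ⊥) (hb : b ≠ ⊥) (c : ℤ) {q F : ℕ}
    (hF : 0 < F) (hq : 0 < q) (hqF : q ∣ F) {v u : OO n t} (h : (F : OO n t) ∣ v - u) :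
    pt m b c q F v = pt m b c q F u := by
  have hF' : (F : ℂ) ≠ 0 := by exact_mod_cast hF.ne'
  have h4 : (q : ℤ) ∣ c * (NI m * NI b * Nm v) - c * (NI m * NI b * Nm u) := by
    have h5 := Nm_congr (CV_cast_dvd hqF h)
    have e : c * (NI m * NI b * Nm v) - c * (NI m * NI b * Nm u) =
        (c * (NI m * NI b)) * (Nm v - Nm u) := by ring
    rw [e]
    exact Dvd.dvd.mul_left h5 _
  obtain ⟨w, hw⟩ := h
  have e2 : toC v / (F : ℂ) = toC u / (F : ℂ) + toC w := by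
    have e3 : v = u + (F : OO n t) * w := by rw [← hw]; ring
    rw [e3, toC_add, toC_mul, toC_nat]
    field_simp
  have h6 : toC w ∈ Lam b := by
    intro x _
    exact ⟨x * w, by rw [toC_mul]⟩
  unfold pt
  rw [CV_zet_congr hq h4, e2, gO_per hm hb h6]

/-! ## The action of inertia -/

theorem pt_gal [Rmf n t] (hE6 : S_E6) (hE10 : S_E10) {f : ℕ} {m b : Ideal (OO n t)} (hm : FM f m)
    (hb : FB f b) (c : ℤ) {q e F0 N : ℕ} (he : 0 < e) (hq : 0 < q) (hF0 : Odd F0) (hfF0 : f ∣ F0)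
    (hqF : q ∣ F0 * 2 ^ N) (hmF : NI m ∣ F0 * 2 ^ N) (hfe : f * e ∣ F0 * 2 ^ N) {σ : Gal(Om/ℚ)}
    (hσK : σ ∈ GK n t) {α : OO n t} (hα : (F0 : OO n t) ∣ α - 1) (hα2 : Cop α 2)
    (hpsi : Psi σ (F0 * 2 ^ N) (sp α)) {v : OO n t} (hv : (f : OO n t) ∣ v - 1) :
    σ (pt m b c q (f * e) v) = pt m b c q (f * e) (α * v) := by
  obtain ⟨hf0, hf15, hm15, hm2f, hmo, hmc, hm0⟩ := CV_fm hm
  obtain ⟨hbG, hb2, hbf, hmb⟩ := CV_fb hm hb
  have h15 : 15 ∣ F0 := dvd_trans hm.dvd hfF0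
  have h15' : 15 ∣ F0 * 2 ^ N := Dvd.dvd.mul_right h15 _
  have hNN : 0 < F0 * 2 ^ N := Nat.mul_pos hF0.pos (by positivity)
  have hα0 : α ≠ 0 := CV_ne_of_cop (le_refl 2) hα2
  have hzq : zet q ^ (F0 * 2 ^ N) = 1 := by
    obtain ⟨s, hs⟩ := hqF
    rw [hs, pow_mul, CV_zet_pow hq, one_pow]
  have h4 := hE6 n t σ _ (sp α) hσK hNN h15' hpsi (zet q) hzq
  have hz : ((F0 * 2 ^ N : ℕ) : ℂ) * (toC v / ((f * e : ℕ) : ℂ)) ∈ Lam b := by
    obtain ⟨s, hs⟩ := hfe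
    have h5 := CV_pt_tor (F := f * e) (Nat.mul_pos hf0 he) b v s
    rwa [mul_comm s, ← hs] at h5
  have hz' : toC v / ((f * e : ℕ) : ℂ) ∉ Lam (m * b) :=
    CV_pt (by omega) he (mul_ne_zero hm.ne hb.ne) (CV_pri_dvd hmb (Dvd.intro_left _ rfl)) hv
  have h6 := ((hE10 n t σ _ (sp α) hNN h15' hpsi).2 m b hm.ne hbG hm.two hm15 hmF _ hz).1 hz'
  have h15α : (15 : OO n t) ∣ α - 1 := by
    have h7 := CV_cast_dvd h15 hα
    have e1 : (((15 : ℕ) : OO n t)) = 15 := by norm_num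
    rwa [e1] at h7
  rw [gO_hom hm.ne hbG hα0 h15α] at h6
  have e2 : toC α * (toC v / ((f * e : ℕ) : ℂ)) = toC (α * v) / ((f * e : ℕ) : ℂ) := by
    rw [toC_mul]
    ring
  rw [e2] at h6
  unfold pt
  rw [map_mul, map_zpow₀, h4, h6]
  have e3 : (zet q ^ NI (sp α)) ^ (c * (NI m * NI b * Nm v)) = zet q ^ (c * (NI m * NI b * Nm (α * v))) := by
    rw [← zpow_natCast, ← zpow_mul, CV_NI_sp, Nm_mul]
    congr 1
    ring
  rw [e3]

/-! ## Integrality -/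

/-- The points `v/(f e)`: `g` is integral. -/
theorem gO_vp [Rmf n t] (hD9 : S_D9) {P : Ideal ZZ} (hP : Ab2 P) {f : ℕ} {m b : Ideal (OO n t)}
    (hm : FM f m) (hb : FB f b) {e' N : ℕ} (he : Odd e') {v : OO n t}
    (hv : (f : OO n t) ∣ v - 1) : VP P (gO m b (toC v / ((f * (e' * 2 ^ N) : ℕ) : ℂ))) := by
  have hPp := hP.1.1
  obtain ⟨hf0, hf15, hm15, hm2f, hmo, hmc, hm0⟩ := CV_fm hm
  obtain ⟨hbG, hb2, hbf, hmb⟩ := CV_fb hm hb
  have he0 : 0 < e' := he.pos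
  have h2N : 0 < 2 ^ N := by positivity
  have hF : 0 < f * (e' * 2 ^ N) := by positivity
  have hF' : ((f * (e' * 2 ^ N) : ℕ) : ℂ) ≠ 0 := by exact_mod_cast hF.ne'
  refine (hD9 n t P hP m b hm.ne hbG hm.two hm15 _ (tor_div hF v) ?_).1
  intro u hu hq
  set z : ℂ := toC v / ((f * (e' * 2 ^ N) : ℕ) : ℂ) with hz
  have hodd : Odd (NI m * (f * e')) := hmo.mul (hm.odd.mul he)
  have h1 : ¬ MP P (toO (((NI m * (f * e') : ℕ)) : OO n t)) := by
    rw [toO_nat]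
    exact (CV_up_oddN hPp hP.2 hodd).2
  have h2 : toC ((((NI m * (f * e') : ℕ)) : OO n t) * ((2 ^ N : ℕ) : OO n t)) * (z + u) ∈ Lam b := by
    rw [toC_mul, toC_nat, toC_nat, mul_add]
    refine lam_add ?_ ?_
    · have h3 := CV_pt_tor hF b v (NI m)
      have e1 : ((NI m * (f * e') : ℕ) : ℂ) * ((2 ^ N : ℕ) : ℂ) * z =
          ((NI m * (f * (e' * 2 ^ N)) : ℕ) : ℂ) * (toC v / ((f * (e' * 2 ^ N) : ℕ) : ℂ)) := by
        rw [hz]
        push_cast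
        ring
      rw [e1]
      exact h3
    · have h5 : ((NI m * (f * e') : ℕ) : ℂ) * ((2 ^ N : ℕ) : ℂ) * u =
          ((f * e' * 2 ^ N : ℕ) : ℂ) * (toC ((NI m : ℕ) : OO n t) * u) := by
        rw [toC_nat]
        push_cast
        ring
      rw [h5]
      exact lam_nat _ (lam_prod.1 hu _ (CV_NI_mem m))
  have h4 := hq _ _ h1 h2
  rw [toC_nat, mul_add] at h4
  have h5 : ((2 ^ N : ℕ) : ℂ) * z ∈ Lam (m * b) := by
    have h6 := lam_sub (lam_mono (a := m) h4) (lam_nat (2 ^ N) hu)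
    rwa [add_sub_cancel_right] at h6
  have h6 : ((2 ^ N : ℕ) : ℂ) * z = toC v / ((f * e' : ℕ) : ℂ) := by
    have hf' : ((f : ℕ) : ℂ) ≠ 0 := by exact_mod_cast hf0.ne'
    have he' : ((e' : ℕ) : ℂ) ≠ 0 := by exact_mod_cast he0.ne'
    rw [hz]
    push_cast
    field_simp
  rw [h6] at h5
  exact CV_pt (by omega) he0 (mul_ne_zero hm.ne hb.ne) (CV_pri_dvd hmb (Dvd.intro_left _ rfl)) hv h5

theorem pt_vp [Rmf n t] (hD9 : S_D9) {P : Ideal ZZ} (hP : Ab2 P) {f : ℕ}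
    {m b : Ideal (OO n t)} (hm : FM f m) (hb : FB f b) (c : ℤ) {q e' N : ℕ} (hq : 0 < q) (he : Odd e')
    {v : OO n t} (hv : (f : OO n t) ∣ v - 1) : VP P (pt m b c q (f * (e' * 2 ^ N)) v) := by
  have hPp := hP.1.1
  exact (CV_up_zpow hPp (CV_up_of_pow hPp hq (CV_zet_pow hq)) _).1.mul (gO_vp hD9 hP hm hb he hv)

end Pool.Agent.DR
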