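import Pool.Agent.Lib.DR.CV.Phi

/-!
# Theorem DR, part CV, module Rp: systems of representatives (author helper28, port of helper97)
-/

set_option autoImplicit false

open scoped Pointwise nonZeroDivisors

noncomputable section

namespace Pool.Agent.DR

open Pool.Agent.MuZ Pool.Agent.FW NumberField IsDedekindDomain Pool.Agent.DN
open Pool.Agent.DI (io ofC io_inj exists_io io_ofC ofC_io VP MP UP TP ex sqr sqr_sq kap)

variable {n t : ℕ}

variable {f nm n' N q : ℕ}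

/-- The first system. -/
theorem rp1 [Rmf n t] (h : Md f nm n' N q) {lf : OO n t → OO n t}
    (h1 : ∀ α, ((2 * f : ℕ) : OO n t) ∣ lf α - α) (h2 : ∀ α, ((n' * nm : ℕ) : OO n t) ∣ lf α - 1) :
    (∀ α ∈ tm2 n t f, Cop (lf α) (2 * f * q)) ∧
    RpI (fun v : OO n t => (f : OO n t) ∣ v - 1 ∧ Cop v 2) (f * (n' * 2 ^ N))
      (tm2 n t f ×ˢ (Finset.range q ×ˢ Finset.range q)) (fun p => lf p.1 * ga (2 * f) p.2.1 p.2.2) := by
  have hf0 : 0 < f := h.f1.pos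
  have hq : 0 < q := by
    have h3 := h.q0
    have h4 : 0 < n' * 2 ^ N := Nat.mul_pos h.n1.pos (by positivity)
    omega
  have hF : f * (n' * 2 ^ N) = 2 * f * q := by rw [← h.q0]; ring
  have hff : f ∣ 2 * f := Dvd.intro_left _ rfl
  have h22 : 2 ∣ 2 * f := Dvd.intro _ rfl
  have hm : ∀ α ∈ tm2 n t f, (f : OO n t) ∣ lf α - 1 ∧ Cop (lf α) 2 := by
    intro α hα
    obtain ⟨h3, h4⟩ := w_tm h.f1 hα
    have h5 := CV_cast_dvd hff (h1 α)
    have h6 := CV_cast_dvd h22 (h1 α)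
    refine ⟨?_, ?_⟩
    · have h7 := dvd_add h5 h3
      rwa [sub_add_sub_cancel] at h7
    · refine cop_congr ?_ h4
      have h7 := dvd_neg.2 h6
      rwa [neg_sub] at h7
  have hc : ∀ α ∈ tm2 n t f, Cop (lf α) (2 * f * q) := by
    intro α hα
    obtain ⟨h3, h4⟩ := hm α hα
    have h5 : Cop (lf α) n' := CV_cop_of_dvd (CV_cast_dvd (Dvd.intro _ rfl) (h2 α))
    have h6 : Cop (lf α) f := CV_cop_of_dvd h3
    have h8 : Cop (lf α) (2 * q) := by
      rw [h.q0, CV_cop_mul]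
      refine ⟨h5, ?_⟩
      unfold Cop at h4 ⊢
      push_cast
      exact h4.pow_right
    have h9 : Cop (lf α) q := cop_dvd h8 (Dvd.intro_left _ rfl)
    exact CV_cop_mul.2 ⟨CV_cop_mul.2 ⟨h4, h6⟩, h9⟩
  refine ⟨hc, ?_⟩
  rw [hF]
  refine RpI.ga (by omega) hq hff h22 hc ⟨hm, ?_, ?_⟩
  · intro α hα β hβ hab
    refine w_tm_uni h.f1 hα hβ ?_
    have h3 := CV_cast_dvd h22 (h1 α)
    have h4 := CV_cast_dvd h22 (h1 β)
    have h5 := CV_cast_dvd h22 hab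
    rw [CV_cast_two] at h3 h4 h5
    have e : α - β = (lf α - lf β) - (lf α - α) + (lf β - β) := by ring
    rw [e]
    exact dvd_add (dvd_sub h5 h3) h4
  · rintro v ⟨hv1, hv2⟩
    obtain ⟨α, hα, h3⟩ := w_tm_ex h.f1 hv2
    refine ⟨α, hα, ?_⟩
    have h4 : ((2 : ℕ) : OO n t) ∣ v - lf α := by
      have h5 := CV_cast_dvd h22 (h1 α)
      have e : v - lf α = (v - α) - (lf α - α) := by ring
      rw [e]
      refine dvd_sub ?_ h5
      rwa [CV_cast_two]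
    have h5 : ((f : ℕ) : OO n t) ∣ v - lf α := by
      have h6 := dvd_sub hv1 (hm α hα).1
      rwa [sub_sub_sub_cancel_right] at h6
    exact CV_cast_mul (Nat.coprime_two_left.2 h.f1) h4 h5

/-- The second system. -/
theorem rp2 [SqN n t] (h : Md f nm n' N q) {A : Finset (OO n t)} (hA : IsG (f * n' * nm) N A) :
    RpI (fun v : OO n t => (f : OO n t) ∣ v - 1 ∧ Cop v 2) (f * (n' * 2 ^ N))
      (A ×ˢ (Finset.range n' ×ˢ Finset.range n')) (fun p => p.1 * ga (f * 2 ^ N) p.2.1 p.2.2) := by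
  have hf0 : 0 < f := h.f1.pos
  have h2N : 0 < 2 ^ N := by positivity
  have hF : f * (n' * 2 ^ N) = f * 2 ^ N * n' := by ring
  have hff : f ∣ f * 2 ^ N := Dvd.intro _ rfl
  have hN1 := h.N1
  have h22 : 2 ∣ f * 2 ^ N := Dvd.dvd.mul_left (dvd_pow_self 2 (by omega)) _
  have hfF : f ∣ f * n' * nm := ⟨n' * nm, by ring⟩
  have hnF : n' ∣ f * n' * nm := ⟨f * nm, by ring⟩
  have hoF : Odd (f * n' * nm) := (h.f1.mul h.n1).mul h.m1
  have h2F : (f * n' * nm).Coprime (2 ^ N) := Nat.Coprime.pow_right N (Nat.coprime_two_right.2 hoF)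
  have hc2 : ∀ {v : OO n t}, Cop v 2 → Cop v (2 ^ N) := by
    intro v hv
    unfold Cop at hv ⊢
    push_cast
    exact hv.pow_right
  rw [hF]
  refine RpI.ga (S := A) (α := fun v : OO n t => v) (Nat.mul_pos hf0 h2N) h.n1.pos hff h22 ?_ ⟨?_, ?_, ?_⟩
  · intro α hα
    obtain ⟨h1, h2⟩ := hA.mem α hα
    exact CV_cop_mul.2 ⟨CV_cop_mul.2 ⟨CV_cop_of_dvd (CV_cast_dvd hfF h1), hc2 h2⟩,
      CV_cop_of_dvd (CV_cast_dvd hnF h1)⟩
  · intro α hα
    obtain ⟨h1, h2⟩ := hA.mem α hα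
    exact ⟨CV_cast_dvd hfF h1, h2⟩
  · intro α hα β hβ hab
    refine hA.uni α hα β hβ (CV_cast_mul h2F ?_ (CV_cast_dvd (Dvd.intro_left _ rfl) hab))
    have h1 := dvd_sub (hA.mem α hα).1 (hA.mem β hβ).1
    rwa [sub_sub_sub_cancel_right] at h1
  · rintro v ⟨hv1, hv2⟩
    obtain ⟨u, -, hu1, hu2⟩ := (aO11 n t).2.2.2.2.2 (f * n' * nm) (2 ^ N) 1 v hoF.pos h2N h2F
    have h22' : 2 ∣ 2 ^ N := dvd_pow_self 2 (by omega)
    have hu3 : Cop u 2 := by
      refine cop_congr (a := v) ?_ hv2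
      have h1 := dvd_neg.2 (CV_cast_dvd h22' hu2)
      rwa [neg_sub] at h1
    obtain ⟨α, hα, h1⟩ := hA.ex u hu1 hu3
    refine ⟨α, hα, CV_cast_mul (Nat.Coprime.pow_right N (Nat.coprime_two_right.2 h.f1)) ?_ ?_⟩
    · have h3 := dvd_sub hv1 (CV_cast_dvd hfF (hA.mem α hα).1)
      rwa [sub_sub_sub_cancel_right] at h3
    · have h3 := CV_cast_dvd (Dvd.intro_left _ rfl : 2 ^ N ∣ f * n' * nm * 2 ^ N) h1
      have e : v - α = (u - α) - (u - v) := by ring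
      rw [e]
      exact dvd_sub h3 hu2


/-- The first system for the elements `1` modulo `2 f`. -/
theorem rp3 [SqN n t] (h : Md f nm n' N q) :
    RpI (fun v : OO n t => ((2 * f : ℕ) : OO n t) ∣ v - 1 ∧ Cop v 2) (f * (n' * 2 ^ N))
      (Finset.range 1 ×ˢ (Finset.range q ×ˢ Finset.range q)) (fun p => 1 * ga (2 * f) p.2.1 p.2.2) := by
  have hf0 : 0 < f := h.f1.pos
  have hq : 0 < q := by
    have h3 := h.q0
    have h4 : 0 < n' * 2 ^ N := Nat.mul_pos h.n1.pos (by positivity)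
    omega
  have hF : f * (n' * 2 ^ N) = 2 * f * q := by rw [← h.q0]; ring
  have h1 : ∀ v : OO n t, ((2 * f : ℕ) : OO n t) ∣ v - 1 → Cop v 2 := fun v hv =>
    CV_cop_of_dvd (CV_cast_dvd (Dvd.intro _ rfl) hv)
  rw [hF]
  refine RpI.ga (S := Finset.range 1) (α := fun _ => (1 : OO n t)) (by omega) hq (dvd_refl _)
    (Dvd.intro _ rfl) (fun _ _ => cop_one _) ⟨fun _ _ => ⟨?_, cop_one 2⟩, ?_, ?_⟩
  · rw [sub_self]
    exact dvd_zero _
  · intro i hi j hj _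
    rw [Finset.mem_range] at hi hj
    omega
  · rintro v ⟨hv, -⟩
    exact ⟨0, Finset.mem_range.2 one_pos, hv⟩

/-- The second system for the elements `1` modulo `2 f`. -/
theorem rp4 [SqN n t] (h : Md f nm n' N q) {A A1 : Finset (OO n t)} (hA : IsG (f * n' * nm) N A)
    (hA1 : ∀ α : OO n t, α ∈ A1 ↔ α ∈ A ∧ (2 : OO n t) ∣ α - 1) :
    RpI (fun v : OO n t => ((2 * f : ℕ) : OO n t) ∣ v - 1 ∧ Cop v 2) (f * (n' * 2 ^ N))
      (A1 ×ˢ (Finset.range n' ×ˢ Finset.range n')) (fun p => p.1 * ga (f * 2 ^ N) p.2.1 p.2.2) := by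
  have hf0 : 0 < f := h.f1.pos
  have h2N : 0 < 2 ^ N := by positivity
  have hF : f * (n' * 2 ^ N) = f * 2 ^ N * n' := by ring
  have hN1 := h.N1
  have h2N' : 2 ∣ 2 ^ N := dvd_pow_self 2 (by omega)
  have hff : 2 * f ∣ f * 2 ^ N := by
    rw [mul_comm 2 f]
    exact mul_dvd_mul_left _ h2N'
  have h22 : 2 ∣ f * 2 ^ N := Dvd.dvd.mul_left h2N' _
  have hfF : f ∣ f * n' * nm := ⟨n' * nm, by ring⟩
  have hnF : n' ∣ f * n' * nm := ⟨f * nm, by ring⟩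
  have hoF : Odd (f * n' * nm) := (h.f1.mul h.n1).mul h.m1
  have h2F : (f * n' * nm).Coprime (2 ^ N) := Nat.Coprime.pow_right N (Nat.coprime_two_right.2 hoF)
  have hc2 : ∀ {v : OO n t}, Cop v 2 → Cop v (2 ^ N) := by
    intro v hv
    unfold Cop at hv ⊢
    push_cast
    exact hv.pow_right
  have h2f : (2 : ℕ).Coprime f := Nat.coprime_two_left.2 h.f1
  rw [hF]
  refine RpI.ga (S := A1) (α := fun v : OO n t => v) (Nat.mul_pos hf0 h2N) h.n1.pos hff h22 ?_ ⟨?_, ?_, ?_⟩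
  · intro α hα
    obtain ⟨h1, h2⟩ := hA.mem α ((hA1 α).1 hα).1
    exact CV_cop_mul.2 ⟨CV_cop_mul.2 ⟨CV_cop_of_dvd (CV_cast_dvd hfF h1), hc2 h2⟩,
      CV_cop_of_dvd (CV_cast_dvd hnF h1)⟩
  · intro α hα
    obtain ⟨h0, h3⟩ := (hA1 α).1 hα
    obtain ⟨h1, h2⟩ := hA.mem α h0
    refine ⟨CV_cast_mul h2f ?_ (CV_cast_dvd hfF h1), h2⟩
    rwa [CV_cast_two]
  · intro α hα β hβ hab
    have hα' := ((hA1 α).1 hα).1
    have hβ' := ((hA1 β).1 hβ).1
    refine hA.uni α hα' β hβ' (CV_cast_mul h2F ?_ (CV_cast_dvd (Dvd.intro_left _ rfl) hab))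
    have h1 := dvd_sub (hA.mem α hα').1 (hA.mem β hβ').1
    rwa [sub_sub_sub_cancel_right] at h1
  · rintro v ⟨hv1, hv2⟩
    have hvf := CV_cast_dvd (Dvd.intro_left _ rfl : f ∣ 2 * f) hv1
    have hv22 := CV_cast_dvd (Dvd.intro _ rfl : 2 ∣ 2 * f) hv1
    obtain ⟨u, -, hu1, hu2⟩ := (aO11 n t).2.2.2.2.2 (f * n' * nm) (2 ^ N) 1 v hoF.pos h2N h2F
    have hu22 := CV_cast_dvd h2N' hu2
    have hu3 : Cop u 2 := by
      refine cop_congr (a := v) ?_ hv2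
      have h1 := dvd_neg.2 hu22
      rwa [neg_sub] at h1
    obtain ⟨α, hα, h1⟩ := hA.ex u hu1 hu3
    have h3 := CV_cast_dvd (Dvd.intro_left _ rfl : 2 ^ N ∣ f * n' * nm * 2 ^ N) h1
    have h4 := CV_cast_dvd h2N' h3
    refine ⟨α, (hA1 α).2 ⟨hα, ?_⟩, CV_cast_mul (Nat.Coprime.pow_right N (Nat.coprime_two_right.2 h.f1)) ?_ ?_⟩
    · rw [← CV_cast_two]
      have e : α - 1 = (v - 1) + (u - v) - (u - α) := by ring
      rw [e]
      exact dvd_sub (dvd_add hv22 hu22) h4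
    · have h5 := dvd_sub hvf (CV_cast_dvd hfF (hA.mem α hα).1)
      rwa [sub_sub_sub_cancel_right] at h5
    · have e : v - α = (u - α) - (u - v) := by ring
      rw [e]
      exact dvd_sub h3 hu2

end Pool.Agent.DR
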