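import Pool.Agent.Lib.DR.CV.Bas
import Pool.Agent.Lib.DR.CV.Abs2
import Pool.Agent.Lib.DM.CV.Rs

/-!
# Theorem DR, part CV, module V1: the terms of the symbol, units of `K` (author helper97)
-/

set_option autoImplicit false

open scoped Pointwise nonZeroDivisors

noncomputable section

namespace Pool.Agent.DR

open Pool.Agent.MuZ Pool.Agent.FW NumberField IsDedekindDomain Pool.Agent.DN
open Pool.Agent.DI (io ofC io_inj exists_io io_ofC ofC_io VP MP UP TP ex sqr sqr_sq kap)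

variable {n t : ℕ}

/-! ## Units of `K` at `P` -/

theorem t0_one [Rmf n t] (h : S_T0) {P : Ideal ZZ} (hP : Ab2 P) {v : OO n t} (hv : Cop v 2) :
    UP P (toO v) ∧ MP P (toO v - 1) := (h n t P hP).2.2.2.2.1 v hv

theorem t0_pp [Rmf n t] (hO4 : S_O4) (h : S_T0) {P : Ideal ZZ} (hP : Ab2 P) {v : OO n t}
    (hv : ¬ Cop v 2) : MP P (toO v) := by
  have hPp := hP.1.1
  have h0 := h n t P hP
  have hv' : v ∈ pp n t := by
    by_contra h1
    exact hv ((o4_pp hO4 v).2 h1)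
  have h1 := h0.2.2.2.2.2.1 v hv'
  have h2 := h0.2.1
  have hp0 : toO (pO n t) ≠ 0 := by
    intro h3
    have h4 := h0.1.ne_zero
    rw [h3] at h4
    norm_num at h4
  have e : toO v = toO v / toO (pO n t) * toO (pO n t) := by
    rw [div_mul_cancel₀ _ hp0]
  rw [e]
  exact DI.MP.mul_left h1 h2

/-- The norm of `pO`. -/
theorem Nm_pO [h : Rmf n t] (hO4 : S_O4) : ∃ u : ℤ, Nm (pO n t) = 2 * u ∧ Odd u := by
  have h1 := (hO4 n t).1
  have h2 := h.zero
  have e : Nm (pO n t) = ((n % 2 : ℕ) : ℤ) ^ 2 + n := by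
    unfold Nm
    change ((n % 2 : ℕ) : ℤ) ^ 2 + (t : ℤ) * ((n % 2 : ℕ) : ℤ) * 1 + n * 1 ^ 2 = _
    rw [h2]
    push_cast
    ring
  rw [e]
  rcases h1 with h1 | h1
  · have h3 : n % 2 = 1 := by omega
    rw [h3]
    refine ⟨2 * (n / 4 : ℕ) + 1, ?_, ⟨(n / 4 : ℕ), by ring⟩⟩
    have h4 : n = 4 * (n / 4) + 1 := by omega
    push_cast
    omega
  · have h3 : n % 2 = 0 := by omega
    rw [h3]
    refine ⟨2 * (n / 4 : ℕ) + 1, ?_, ⟨(n / 4 : ℕ), by ring⟩⟩
    push_cast
    omega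

theorem pp_mul [Rmf n t] (hO4 : S_O4) {v : OO n t} (hv : v ∈ pp n t) :
    ∃ v' : OO n t, v * pO n t = 2 * v' := by
  have h1 : pO n t ∈ pp n t := by
    rw [o4_mem hO4, sub_self]
    exact Or.inr (dvd_zero _)
  have h2 : v * pO n t ∈ pp n t * pp n t := Ideal.mul_mem_mul hv h1
  rw [(hO4 n t).2.2.2.1] at h2
  exact Ideal.mem_span_singleton.1 h2

/-- A quotient of elements of `O` which is a unit at `P` is congruent to `1`. -/
theorem K_unit [Rmf n t] (hO4 : S_O4) (hT0 : S_T0) {P : Ideal ZZ} (hP : Ab2 P) {x y : OO n t} (hy : y ≠ 0)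
    (h : UP P (toO x / toO y)) : MP P (toO x / toO y - 1) := by
  have hPp := hP.1.1
  have hpO := (hT0 n t P hP).1.ne_zero
  have hp0 : toO (pO n t) ≠ 0 := by
    intro h3
    rw [h3] at hpO
    norm_num at hpO
  obtain ⟨u, hu, huo⟩ := Nm_pO (n := n) (t := t) hO4
  have key : ∀ (k : ℕ) (x y : OO n t), ¬ (2 : ℤ) ^ k ∣ Nm y → UP P (toO x / toO y) →
      MP P (toO x / toO y - 1) := by
    intro k
    induction k with
    | zero =>
      intro x y h1 _
      rw [pow_zero] at h1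
      exact absurd (one_dvd _) h1
    | succ k ih =>
      intro x y h1 h2
      have hy0 : toO y ≠ 0 := by
        intro h3
        have h4 := h2.ne_zero
        rw [h3, div_zero] at h4
        exact h4 rfl
      by_cases hy : Cop y 2
      · obtain ⟨h3, h4⟩ := t0_one hT0 hP hy
        by_cases hx : Cop x 2
        · obtain ⟨h5, h6⟩ := t0_one hT0 hP hx
          have e : toO x / toO y - 1 = ((toO x - 1) - (toO y - 1)) * (toO y)⁻¹ := by
            field_simp
            ring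
          rw [e]
          exact DI.MP.mul_right (h6.sub h4) h3.inv.1
        · exfalso
          have h5 := t0_pp hO4 hT0 hP hx
          refine h2.2 ?_
          rw [div_eq_mul_inv]
          exact DI.MP.mul_right h5 h3.inv.1
      · have hx : ¬ Cop x 2 := by
          intro hx
          have h5 := (t0_one hT0 hP hx).1
          have h6 := DI.MP.mul_left h2.1 (t0_pp hO4 hT0 hP hy)
          rw [div_mul_cancel₀ _ hy0] at h6
          exact h5.2 h6
        have hy' : y ∈ pp n t := by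
          by_contra h3
          exact hy ((o4_pp hO4 y).2 h3)
        have hx' : x ∈ pp n t := by
          by_contra h3
          exact hx ((o4_pp hO4 x).2 h3)
        obtain ⟨y', hy1⟩ := pp_mul hO4 hy'
        obtain ⟨x', hx1⟩ := pp_mul hO4 hx'
        have h20 : (2 : Om) ≠ 0 := by norm_num
        have e2 : toO (2 : OO n t) = 2 := by
          have := toO_nat (n := n) (t := t) 2
          push_cast at this
          exact this
        have e3 : toO x / toO y = toO x' / toO y' := by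
          have f1 := congrArg toO hy1
          have f2 := congrArg toO hx1
          rw [toO_mul, toO_mul, e2] at f1 f2
          have hy'0 : toO y' ≠ 0 := by
            intro h5
            rw [h5, mul_zero] at f1
            exact mul_ne_zero hy0 hp0 f1
          rw [div_eq_div_iff hy0 hy'0]
          apply mul_left_cancel₀ h20
          linear_combination toO y * f2 - toO x * f1
        rw [e3] at h2 ⊢
        refine ih x' y' ?_ h2
        intro h5
        apply h1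
        have e4 : Nm y * u = 2 * Nm y' := by
          have f1 := congrArg Nm hy1
          rw [Nm_mul, Nm_mul, hu] at f1
          have f2 : Nm (2 : OO n t) = 4 := by
            have := Nm_nat (n := n) (t := t) 2
            push_cast at this
            rw [this]
          rw [f2] at f1
          linarith
        have h6 : (2 : ℤ) ^ (k + 1) ∣ Nm y * u := by
          rw [e4, pow_succ, mul_comm]
          exact mul_dvd_mul_left 2 h5
        have h7 : IsCoprime ((2 : ℤ) ^ (k + 1)) u := by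
          refine IsCoprime.pow_left ?_
          obtain ⟨z, hz⟩ := huo
          exact ⟨-z, 1, by rw [hz]; ring⟩
        exact h7.dvd_of_dvd_mul_right h6
  refine key (Nm y).natAbs x y ?_ h
  intro h1
  have h2 := Nm_pos hy
  have h3 := Int.le_of_dvd h2 h1
  have h4 : (Nm y).natAbs < 2 ^ (Nm y).natAbs := Nat.lt_two_pow_self
  have h5 : ((Nm y).natAbs : ℤ) = Nm y := Int.natAbs_of_nonneg h2.le
  have h6 : ((Nm y).natAbs : ℤ) < 2 ^ (Nm y).natAbs := by exact_mod_cast h4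
  rw [h5] at h6
  exact absurd h3 (not_le.2 h6)

/-! ## The terms -/

/-- The term `χ(b) rO(1, b) (pO/2) E_b(r)`. -/
def Fb (f : ℕ) (m : Ideal (OO n t)) (χ : Ideal (OO n t) → Om) (r : ℚ) (b : Ideal (OO n t)) : Om :=
  χ b * rO ⊤ b * (toO (pO n t) / 2 * etE f m b r)

/-- The first half of the symbol. -/
def xw (f : ℕ) (m : Ideal (OO n t)) (R : Finset (Ideal (OO n t))) (χ : Ideal (OO n t) → Om) (r : ℚ) : Om :=
  ∑ b ∈ R, Fb f m χ r b

theorem xs_eq (f : ℕ) (m : Ideal (OO n t)) (R : Finset (Ideal (OO n t))) (χ : Ideal (OO n t) → Om)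
    (r : ℚ) : xs f m R χ r = xw f m R χ r + xw f m R χ (-r) := by
  unfold xs xw Fb
  rw [← Finset.sum_add_distrib, Finset.mul_sum]
  refine Finset.sum_congr rfl fun b _ => ?_
  ring

/-- The framing is a unit at `P`. -/
theorem r_rO_up [Rmf n t] (hD2 : S_D2) {P : Ideal ZZ} (hP : Ab2 P) {a b : Ideal (OO n t)} (hb : G15 b)
    (ha : G15 a) (ha2 : PrI a 2) : UP P (rO b (a * b)) :=
  (hD2 n t P hP b hb).2.2.2.2.2.2.1 a ha.ne ha2 ha.cop

/-- The hypotheses of this part. -/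
structure VH [Rmf n t] (P : Ideal ZZ) (f M : ℕ) (m : Ideal (OO n t)) (R : Finset (Ideal (OO n t)))
    (χ : Ideal (OO n t) → Om) : Prop where
  hP : Ab2 P
  hm : FM f m
  hR : FR f R
  hRC : IsRC f R
  hM : IsLw f m R M
  hχ : IsChi (2 * f) χ
  O4 : S_O4
  T0 : S_T0
  C1 : S_C1
  C6 : S_C6
  C9o : S_C9o
  C9e : S_C9e
  C10 : S_C10
  R1 : S_R1
  D2 : S_D2

variable [Rmf n t] {P : Ideal ZZ} {f M : ℕ} {m : Ideal (OO n t)} {R : Finset (Ideal (OO n t))}
  {χ : Ideal (OO n t) → Om}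

theorem VH.g15 (h : VH P f M m R χ) {b : Ideal (OO n t)} (hb : FB f b) : G15 b := V1_fb15 h.hm.dvd hb

theorem VH.pri2 (_h : VH P f M m R χ) {b : Ideal (OO n t)} (hb : FB f b) : PrI b 2 :=
  CV_pri_dvd hb.cop (Dvd.intro _ rfl)

theorem VH.rOtop (h : VH P f M m R χ) {b : Ideal (OO n t)} (hb : FB f b) : UP P (rO ⊤ b) := by
  have h1 := r_rO_up h.D2 h.hP r_G15_top (h.g15 hb) (h.pri2 hb)
  rwa [Ideal.mul_top] at h1

/-- Integrality of `(pO/2) E_b(r)`. -/
theorem VH.E_vp (h : VH P f M m R χ) {r : ℚ} (hr : r.den.Coprime M) {b : Ideal (OO n t)} (hb : FB f b) :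
    VP P (toO (pO n t) / 2 * etE f m b r) := by
  obtain ⟨b', hb', h1⟩ := h.hRC.ex b hb.ne (CV_pri_dvd hb.cop (Dvd.intro_left _ rfl))
  rw [r_E_cls h.O4 h.C6 h.hm hb (h.hR b' hb') h1 r]
  exact (h.C10 n t f M m b' h.hm (h.hR b' hb') (r_lv h.hM.lv hb') P h.hP r hr).1

/-- Integrality of the values `η`. -/
theorem VH.eta_vp (h : VH P f M m R χ) {r : ℚ} (hr : r.den.Coprime M) {b : Ideal (OO n t)} (hb : FB f b) :
    VP P (etaM (2 * f) m b r) := by
  obtain ⟨R2, hR2, hRC2, hLv2⟩ := h.hM.ex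
  obtain ⟨b', hb', h1⟩ := hRC2.ex b hb.ne hb.cop
  rw [((h.C6 n t f m b h.hm hb).1 b' (hR2 b' hb') h1).2 r]
  exact (h.C10 n t f M m b' h.hm (hR2 b' hb') (r_lv hLv2 hb') P h.hP r hr).2.1

theorem VH.vp (h : VH P f M m R χ) {r : ℚ} (hr : r.den.Coprime M) {b : Ideal (OO n t)} (hb : FB f b) :
    VP P (Fb f m χ r b) := by
  have hPp := h.hP.1.1
  exact ((V2_up h.hχ hPp hb).1.mul (h.rOtop hb).1).mul (h.E_vp hr hb)

theorem VH.xw_vp (h : VH P f M m R χ) {r : ℚ} (hr : r.den.Coprime M) : VP P (xw f m R χ r) := by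
  have hPp := h.hP.1.1
  exact DI.VP.sum _ _ fun b hb => h.vp hr (h.hR b hb)

/-- Elements which are `1` modulo `2 f` or `1` modulo `f` and odd. -/
theorem VH.one (h : VH P f M m R χ) {v : OO n t} (hv : Cop v (2 * f)) : UP P (toO v) ∧ MP P (toO v - 1) :=
  t0_one h.T0 h.hP (cop_dvd hv (Dvd.intro _ rfl))

/-- The terms are class functions modulo `P`. -/
theorem VH.cls (h : VH P f M m R χ) {r : ℚ} (hr : r.den.Coprime M) {b b' : Ideal (OO n t)} (hb : FB f b)
    (hb' : FB f b') (hbb : Ray f b b') : MP P (Fb f m χ r b' - Fb f m χ r b) := by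
  have hPp := h.hP.1.1
  have hf0 := h.hm.odd.pos
  obtain ⟨γ, h1, h2, h3⟩ := r_lift hf0 hb hb' hbb
  have hγc := V1_cop2f h1 h2
  have hγ := CV_fb_sp hf0 hγc
  have hγb := CV_fb_mul hγ hb
  obtain ⟨β, β', k1, k2, k3, k4, k5⟩ := V1_ray_one (by omega) h3
  have hdv : ∀ {v : OO n t}, ((2 * f : ℕ) : OO n t) ∣ v - 1 → (15 : OO n t) ∣ v - 1 := by
    intro v hv
    exact r_15f h.hm.dvd (CV_cast_dvd (Dvd.intro_left _ rfl) hv)
  have e1 := r_rO_mul h.R1 r_G15_top (h.g15 hb') (hdv k3)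
  have e2 := r_rO_mul h.R1 r_G15_top (h.g15 hγb) (hdv k4)
  rw [r_rO_mul h.R1 r_G15_top (h.g15 hb) (r_15f h.hm.dvd h1)] at e2
  rw [k5, e2] at e1
  obtain ⟨u1, m1⟩ := h.one k1
  obtain ⟨u2, m2⟩ := h.one k2
  obtain ⟨u3, m3⟩ := h.one hγc
  have hβ0 := u1.ne_zero
  have e3 : Fb f m χ r b' - Fb f m χ r b = χ b * ((rO ⊤ b' - rO ⊤ b) * (toO (pO n t) / 2 * etE f m b r)) := by
    unfold Fb
    rw [← r_chi_ray h.O4 h.hm.odd h.hχ hPp hb hb' hbb, ← r_E_cls h.O4 h.C6 h.hm hb hb' hbb r]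
    ring
  rw [e3]
  refine DI.MP.mul_left (V2_up h.hχ hPp hb).1 (DI.MP.mul_right ?_ (h.E_vp hr hb))
  have e4 : rO ⊤ b' - rO ⊤ b = ((toO β' - 1) * toO γ + (toO γ - 1) - (toO β - 1)) * (toO β)⁻¹ * rO ⊤ b := by
    field_simp
    linear_combination -e1
  rw [e4]
  exact DI.MP.mul_right (DI.MP.mul_right (((DI.MP.mul_right m2 u3.1).add m3).sub m1) u1.inv.1) (h.rOtop hb).1

/-- The sum over the classes, translated. -/
theorem VH.sum (h : VH P f M m R χ) {r : ℚ} (hr : r.den.Coprime M) {c : Ideal (OO n t)} (hc : FB f c) :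
    MP P (∑ b ∈ R, Fb f m χ r (c * b) - ∑ b ∈ R, Fb f m χ r b) := by
  classical
  have hPp := h.hP.1.1
  have hf0 := h.hm.odd.pos
  have hex : ∀ b : Ideal (OO n t), ∃ b' : Ideal (OO n t), b ∈ R → b' ∈ R ∧ Ray f (c * b) b' := by
    intro b
    by_cases hb : b ∈ R
    · have h1 := CV_fb_mul hc (h.hR b hb)
      obtain ⟨b', hb', h2⟩ := h.hRC.ex (c * b) h1.ne (CV_pri_dvd h1.cop (Dvd.intro_left _ rfl))
      exact ⟨b', fun _ => ⟨hb', h2⟩⟩
    · exact ⟨⊤, fun h1 => absurd h1 hb⟩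
  choose π hπ using hex
  obtain ⟨h71, h72, h73, h74, h75, -⟩ := aO7 n t f hf0
  have hmaps : Set.MapsTo π (R : Set (Ideal (OO n t))) R := fun b hb => (hπ b hb).1
  have hinj : Set.InjOn π (R : Set (Ideal (OO n t))) := by
    intro b hb b' hb' hbb
    have h1 := (hπ b hb).2
    have h2 := (hπ b' hb').2
    rw [← hbb] at h2
    have h3 := h73 _ _ _ h1 (h72 _ _ h2)
    refine h.hRC.uni b hb b' hb' (h75 b b' c hc.ne (CV_pri_dvd hc.cop (Dvd.intro_left _ rfl)) ?_)
    rw [mul_comm b c, mul_comm b' c]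
    exact h3
  have hsurj : Set.SurjOn π (R : Set (Ideal (OO n t))) R :=
    Finset.surjOn_of_injOn_of_card_le π hmaps hinj le_rfl
  have e1 : ∑ b ∈ R, Fb f m χ r b = ∑ b ∈ R, Fb f m χ r (π b) :=
    (Finset.sum_nbij π hmaps hinj hsurj fun b _ => rfl).symm
  rw [e1, ← Finset.sum_sub_distrib]
  refine DI.MP.sum _ _ fun b hb => ?_
  exact CV_mp_symm (h.cls hr (CV_fb_mul hc (h.hR b hb)) (h.hR _ (hπ b hb).1) (hπ b hb).2)

end Pool.Agent.DR
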