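import Pool.Agent.Lib.DR.CV.V1

/-!
# Theorem DR, part CV, module V2: the transformation of the first half of the symbol (author helper97)
-/

set_option autoImplicit false

open scoped Pointwise nonZeroDivisors

noncomputable section

namespace Pool.Agent.DR

open Pool.Agent.MuZ Pool.Agent.FW NumberField IsDedekindDomain Pool.Agent.DN
open Pool.Agent.DI (io ofC io_inj exists_io io_ofC ofC_io VP MP UP TP ex sqr sqr_sq kap)
open Pool.Agent.DM (RF rs rs_of rs_add rs_sub rs_mul rs_neg rs_zero rs_one rs_pow rs_int rs_eq rs_mp)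

variable {n t : ℕ}

/-! ## The fourth root of unity -/

theorem zet4_sq : zet 4 * zet 4 = -1 := by
  apply io_inj
  rw [map_mul, CV_io_zet (by norm_num), map_neg, map_one]
  unfold ex
  rw [← Complex.exp_add]
  have e : (2 * Real.pi * Complex.I * (1 / ((4 : ℕ) : ℂ)) + 2 * Real.pi * Complex.I * (1 / ((4 : ℕ) : ℂ)) : ℂ) =
      Real.pi * Complex.I := by
    push_cast
    ring
  rw [e, Complex.exp_pi_mul_I]

theorem zet4_odd {u : ℕ} (hu : Odd u) : zet 4 ^ u = zet 4 ∨ zet 4 ^ u = -zet 4 := by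
  obtain ⟨j, rfl⟩ := hu
  rw [pow_succ, pow_mul, pow_two, zet4_sq]
  rcases neg_one_pow_eq_or Om j with h | h
  · left
    rw [h, one_mul]
  · right
    rw [h]
    ring

theorem zet4_one {P : Ideal ZZ} (hP : Ab2 P) : VP P (zet 4) ∧ MP P (zet 4 - 1) := by
  have hPp := hP.1.1
  have h1 : UP P (zet 4) := CV_up_of_pow hPp (by norm_num) (CV_zet_pow (q := 4) (by norm_num))
  refine ⟨h1.1, ?_⟩
  apply DI.MP.of_pow (n := 2)
  have e : (zet 4 - 1) ^ 2 = 2 * (-zet 4) := by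
    linear_combination zet4_sq
  rw [e]
  exact DI.MP.mul_right hP.2 h1.1.neg

/-- Odd powers. -/
theorem zet4_diff {u v : ℕ} (hu : Odd u) (hv : Odd v) : ∃ s : ℤ, zet 4 ^ u - zet 4 ^ v = 2 * (s * zet 4) := by
  rcases zet4_odd hu with h | h <;> rcases zet4_odd hv with h' | h' <;> rw [h, h']
  · exact ⟨0, by push_cast; ring⟩
  · exact ⟨1, by push_cast; ring⟩
  · exact ⟨-1, by push_cast; ring⟩
  · exact ⟨0, by push_cast; ring⟩

theorem zet4_u {P : Ideal ZZ} (hP : Ab2 P) {u : ℕ} (hu : Odd u) : MP P (zet 4 ^ u - 1) := by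
  have hPp := hP.1.1
  obtain ⟨h1, h2⟩ := zet4_one hP
  rcases zet4_odd hu with h | h
  · rw [h]
    exact h2
  · rw [h]
    have e : -zet 4 - 1 = -(zet 4 - 1) + 2 * (-1) := by ring
    rw [e]
    exact h2.neg.add (DI.MP.mul_right hP.2 DI.VP.one.neg)

variable [Rmf n t] {P : Ideal ZZ} {f M : ℕ} {m : Ideal (OO n t)} {R : Finset (Ideal (OO n t))}
  {χ : Ideal (OO n t) → Om}

theorem VH.M3 (h : VH P f M m R χ) : 3 ≤ M := h.hM.lv.three

theorem VH.M2 (h : VH P f M m R χ) : 2 ≤ M := le_trans (by norm_num) h.M3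

/-! ## The translation -/

theorem VH.xw_T (h : VH P f M m R χ) {r : ℚ} (hr : r.den.Coprime M) :
    MP P (xw f m R χ (r + 1) - xw f m R χ r) := by
  have hPp := h.hP.1.1
  have hf0 := h.hm.odd.pos
  have hM2 := h.M2
  unfold xw
  rw [← Finset.sum_sub_distrib]
  refine DI.MP.sum _ _ fun b hb => ?_
  have hbF := h.hR b hb
  obtain ⟨hNM, -⟩ : NI m ∣ M ∧ True := ⟨(r_lvd h.hM.lv).2.1, trivial⟩
  -- the quarter
  have hr4 : (r / 4).den.Coprime M := by
    have h1 := chalf hM2 h.hM.lv.odd (chalf hM2 h.hM.lv.odd hr)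
    have e : r / 2 / 2 = r / 4 := by ring
    rwa [e] at h1
  have hr4' : (r / 4).den.Coprime (NI m) := Nat.Coprime.coprime_dvd_right hNM hr4
  have hmo : Odd (NI m) := CV_NI_odd h.hm.two
  have hodd : ∀ {c : Ideal (OO n t)}, FB f c → Odd (NI (m * c)) := by
    intro c hc
    rw [CV_NI_mul]
    exact hmo.mul (CV_NI_odd (h.pri2 hc))
  have hE : toO (pO n t) / 2 * etE f m b (r + 1) - toO (pO n t) / 2 * etE f m b r =
      (zet 4 ^ NI (m * b) - 1) * (toO (pO n t) / 2 * etE f m b r) +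
      ∑ α ∈ tm2 n t f, toO (pO n t) * ((zet 4 ^ NI (m * (sp α * b)) - zet 4 ^ NI (m * b)) / 2 *
        etaM (2 * f) m (sp α * b) (r / 4)) := by
    unfold etE
    rw [Finset.mul_sum, Finset.mul_sum, Finset.mul_sum, ← Finset.sum_sub_distrib, ← Finset.sum_add_distrib]
    refine Finset.sum_congr rfl fun α hα => ?_
    obtain ⟨h1, h2⟩ := r_tm h.O4 h.hm.odd hα
    have hαb := CV_fb_mul (CV_fb_sp hf0 (V1_cop2f h1 h2)) hbF
    have h3 := (h.C6 n t f m _ h.hm hαb).2.2.2.1 (r / 4) hr4'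
    have e : (r + 1) / 4 = r / 4 + 1 / 4 := by ring
    rw [e, h3]
    ring
  have e1 : Fb f m χ (r + 1) b - Fb f m χ r b =
      χ b * rO ⊤ b * (toO (pO n t) / 2 * etE f m b (r + 1) - toO (pO n t) / 2 * etE f m b r) := by
    unfold Fb
    ring
  rw [e1, hE]
  refine DI.MP.mul_left ((V2_up h.hχ hPp hbF).1.mul (h.rOtop hbF).1) (DI.MP.add ?_ ?_)
  · exact DI.MP.mul_right (zet4_u h.hP (hodd hbF)) (h.E_vp hr hbF)
  · refine DI.MP.sum _ _ fun α hα => ?_
    obtain ⟨h1, h2⟩ := r_tm h.O4 h.hm.odd hα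
    have hαb := CV_fb_mul (CV_fb_sp hf0 (V1_cop2f h1 h2)) hbF
    obtain ⟨s, hs⟩ := zet4_diff (hodd hαb) (hodd hbF)
    rw [hs, mul_div_cancel_left₀ _ (by norm_num : (2 : Om) ≠ 0)]
    exact DI.MP.mul_right (h.T0 n t P h.hP).2.1
      (((DI.VP.int s).mul (zet4_one h.hP).1).mul (h.eta_vp hr4 hαb))

/-! ## The elements with `4 ∣ b`, `8 ∣ c` -/

/-- The function `E_b`. -/
theorem VH.E_g (h : VH P f M m R χ) {a b' c d : ℤ} (hG : G0 M a b' c d) (hb4 : (4 : ℤ) ∣ b')
    (hc8 : (8 : ℤ) ∣ c) {b : Ideal (OO n t)} (hb : FB f b) {r : ℚ} (hr : r.den.Coprime M) :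
    FB f (sp (a : OO n t)) ∧
    etE f m b ((a * r + b') / (c * r + d)) =
      (eps n t d : Om) * (rO b (sp (a : OO n t) * b) / a) *
        (etE f m (sp (a : OO n t) * b) r - etE f m (sp (a : OO n t) * b) 0) +
      etE f m b (b' / d) := by
  have hf0 := h.hm.odd.pos
  obtain ⟨R2, hR2, hRC2, hLv2⟩ := h.hM.ex
  obtain ⟨hfM, -, -, -⟩ := r_lvd hLv2
  have hM2 := h.M2
  have ho := hLv2.odd
  obtain ⟨b1, hb1⟩ := hb4
  obtain ⟨c1, hc1⟩ := hc8
  obtain ⟨hdM, haM, hne, -⟩ := CV_mob hM2 hG hr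
  have haf : IsCoprime a (f : ℤ) := haM.of_isCoprime_of_dvd_right (by exact_mod_cast hfM)
  have ha2 : IsCoprime a (2 : ℤ) := ⟨d, -(4 * b' * c1), by rw [← hG.1, hc1]; ring⟩
  have ha2f : Cop (a : OO n t) (2 * f) := by
    apply CV_cop_int
    push_cast
    exact ha2.mul_right haf
  have hA : FB f (sp (a : OO n t)) := CV_fb_sp hf0 ha2f
  refine ⟨hA, ?_⟩
  have hG32 : G0 (32 * M) a b1 (4 * c) d := by
    refine ⟨?_, ?_⟩
    · rw [← hG.1, hb1]
      ring
    · obtain ⟨c2, hc2⟩ := hG.2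
      have h1 : (8 : ℤ) ∣ M * c2 := by
        rw [← hc2]
        exact ⟨c1, hc1⟩
      have h2 : IsCoprime (8 : ℤ) (M : ℤ) := by
        have h3 := Nat.isCoprime_iff_coprime.2 (Nat.Coprime.pow_left 3 (Nat.coprime_two_left.2 ho))
        exact_mod_cast h3
      obtain ⟨c3', hc3'⟩ := h2.dvd_of_dvd_mul_left h1
      refine ⟨c3', ?_⟩
      push_cast
      rw [hc2, hc3']
      ring
  have hr2 : (r / 4).den.Coprime M := by
    have h1 := chalf hM2 ho (chalf hM2 ho hr)
    have e : r / 2 / 2 = r / 4 := by ring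
    rwa [e] at h1
  -- the terms
  have key : ∀ α ∈ tm2 n t f, etaM (2 * f) m (sp α * b) (((a * r + b') / (c * r + d)) / 4) =
      (eps n t d : Om) * (rO b (sp (a : OO n t) * b) / a) *
        (etaM (2 * f) m (sp α * (sp (a : OO n t) * b)) (r / 4) -
          etaM (2 * f) m (sp α * (sp (a : OO n t) * b)) (0 / 4)) +
      etaM (2 * f) m (sp α * b) ((b' / d) / 4) := by
    intro α hα
    obtain ⟨hα1, hα2⟩ := r_tm h.O4 h.hm.odd hα
    have hαF := CV_fb_sp hf0 (V1_cop2f hα1 hα2)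
    have hαb := CV_fb_mul hαF hb
    obtain ⟨b2, hb2R, hray⟩ := hRC2.ex (sp α * b) hαb.ne hαb.cop
    have hb2F := hR2 b2 hb2R
    obtain ⟨-, hd0, -, h5⟩ := h.C1 n t f M m b2 h.hm hb2F (r_lv hLv2 hb2R) a b1 (4 * c) d hG32
    obtain ⟨-, h6⟩ := h5 (r / 4) hr2
    have hray' : Ray (2 * f) (sp α * (sp (a : OO n t) * b)) (sp (a : OO n t) * b2) := by
      have h7 := V1_ray_mul (F := 2 * f) (by omega) (V1_ray_refl (by omega) (sp (a : OO n t))) hray
      have e : sp (a : OO n t) * (sp α * b) = sp α * (sp (a : OO n t) * b) := by ring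
      rwa [e] at h7
    have hab := CV_fb_mul hαF (CV_fb_mul hA hb)
    have e1 : ∀ s : ℚ, etaM (2 * f) m (sp α * b) s = etaM (2 * f) m b2 s := fun s =>
      ((h.C6 n t f m _ h.hm hαb).1 _ hb2F hray).2 s
    have e2 : ∀ s : ℚ, etaM (2 * f) m (sp α * (sp (a : OO n t) * b)) s =
        etaM (2 * f) m (sp (a : OO n t) * b2) s := fun s =>
      ((h.C6 n t f m _ h.hm hab).1 _ (CV_fb_mul hA hb2F) hray').2 s
    -- the framings
    have h15 := h.hm.dvd
    obtain ⟨β, β', k1, k2, k3, k4, k5⟩ := V1_ray_one (by omega) hray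
    have k3' := r_15f h15 (CV_cast_dvd (Dvd.intro_left _ rfl : f ∣ 2 * f) k3)
    have k4' := r_15f h15 (CV_cast_dvd (Dvd.intro_left _ rfl : f ∣ 2 * f) k4)
    have k6 : sp (β * α) * b = sp β' * b2 := by
      rw [← k5, ← CV_sp_mul]
      ring
    have k7 : (15 : OO n t) ∣ β * α - 1 := by
      have e : β * α - 1 = β * (α - 1) + (β - 1) := by ring
      rw [e]
      exact dvd_add (dvd_mul_of_dvd_right (r_15f h15 hα1) _) k3'
    have e3 := r_rO_ratio h.R1 (h.g15 hA) (h.g15 hb) (h.g15 hb2F) k7 k4' k6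
    have e4 : ((a * r + b') / (c * r + d)) / 4 = (a * (r / 4) + b1) / (((4 * c : ℤ) : ℚ) * (r / 4) + d) := by
      have e5 : ((4 * c : ℤ) : ℚ) * (r / 4) + d = c * r + d := by
        push_cast
        ring
      rw [e5, hb1]
      push_cast
      ring
    have hd0' : (d : ℚ) ≠ 0 := by exact_mod_cast hd0
    have e5 : ((b' : ℚ) / d) / 4 = b1 / d := by
      rw [hb1]
      push_cast
      ring
    rw [e1, e1, e2, e2, e3, e4, e5, h6, zero_div]
  unfold etE
  rw [← Finset.sum_sub_distrib, Finset.mul_sum, ← Finset.sum_add_distrib]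
  exact Finset.sum_congr rfl fun α hα => key α hα

/-- The transformation of the first half of the symbol. -/
theorem VH.g (h : VH P f M m R χ) {a b' c d : ℤ} (hG : G0 M a b' c d) (hb4 : (4 : ℤ) ∣ b')
    (hc8 : (8 : ℤ) ∣ c) {r : ℚ} (hr : r.den.Coprime M) :
    Odd d ∧ UP P (χ (sp (d : OO n t))) ∧
    MP P (xw f m R χ ((a * r + b') / (c * r + d)) - xw f m R χ (b' / d) -
      χ (sp (d : OO n t)) * (xw f m R χ r - xw f m R χ 0)) := by
  have hPp := h.hP.1.1
  have hf0 := h.hm.odd.pos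
  have hLv := h.hM.lv
  obtain ⟨hfM, -, hDM, -⟩ := r_lvd hLv
  have hM2 := h.M2
  obtain ⟨hdM, haM, hne, hgr⟩ := CV_mob hM2 hG hr
  have hA := (h.E_g hG hb4 hc8 (CV_fb_top (n := n) (t := t) f) hr).1
  -- parities
  obtain ⟨c1, hc1⟩ := hc8
  have had : Odd (a * d) := by
    have e : a * d = 2 * (4 * b' * c1) + 1 := by
      have h1 := hG.1
      rw [hc1] at h1
      linear_combination h1
    exact ⟨4 * b' * c1, e⟩
  obtain ⟨hao, hdo⟩ := Int.odd_mul.1 had
  have ha0 : a ≠ 0 := by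
    rintro rfl
    exact absurd hao (by decide)
  have haO : (a : Om) ≠ 0 := by exact_mod_cast ha0
  have hau := CV_up_odd hPp h.hP.2 hao
  -- the characters
  have hχa := V2_up h.hχ hPp hA
  have h1 : χ (sp (a : OO n t)) * χ (sp (d : OO n t)) = 1 := by
    rw [← h.hχ.mul, CV_sp_mul, ← V2_top h.hχ hPp]
    have hmd : ((2 * f : ℕ) : OO n t) ∣ (a : OO n t) * (d : OO n t) - 1 := by
      have e : (a : OO n t) * (d : OO n t) - 1 = ((a * d - 1 : ℤ) : OO n t) := by push_cast; ring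
      rw [e, nat_dvd_iff, re_int, im_int]
      refine ⟨?_, dvd_zero _⟩
      have hfM' : (f : ℤ) ∣ (M : ℤ) := by exact_mod_cast hfM
      have e2 : a * d - 1 = b' * c := by linear_combination hG.1
      rw [e2]
      push_cast
      refine Dvd.dvd.mul_left (IsCoprime.mul_dvd ?_ ⟨4 * c1, by rw [hc1]; ring⟩ (dvd_trans hfM' hG.2)) _
      have := Nat.isCoprime_iff_coprime.2 (Nat.coprime_two_left.2 h.hm.odd)
      exact_mod_cast this
    have h3 : Cop ((a : OO n t) * (d : OO n t)) (2 * f) := CV_cop_of_dvd hmd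
    rw [V2_ray h.hχ (CV_fb_sp hf0 h3) (CV_fb_top f) ?_]
    have h4 := V1_ray_congr (by omega) h3 (cop_one (2 * f)) hmd
    rwa [CV_sp_one] at h4
  have hχ0 := hχa.ne_zero
  have hdu : UP P (χ (sp (d : OO n t))) := by
    have e : χ (sp (d : OO n t)) = (χ (sp (a : OO n t)))⁻¹ := by
      field_simp
      linear_combination h1
    rw [e]
    exact hχa.inv
  refine ⟨hdo, hdu, ?_⟩
  -- the symbol of `d`
  have hD : IsCoprime d (Dk n t : ℤ) := by
    have h2 : IsCoprime d (dO n : ℤ) := hdM.of_isCoprime_of_dvd_right (by exact_mod_cast hDM)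
    have h3 : IsCoprime d (2 : ℤ) := by
      obtain ⟨x, hx⟩ := hdo
      exact ⟨1, -x, by rw [hx]; ring⟩
    have h4 : (Dk n t : ℤ) ∣ 2 * (2 * (2 * (dO n : ℤ))) := by
      have h5 : Dk n t = 4 * n := by
        unfold Dk
        have h6 : t = 0 := Rmf.zero (n := n)
        rw [h6]
        simp
      rw [h5]
      have h7 : 4 * n ∣ 2 * (2 * (2 * dO n)) := by
        unfold dO
        split_ifs with h8
        · exact ⟨1, by omega⟩
        · exact ⟨2, by omega⟩
      exact_mod_cast h7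
    exact (h3.mul_right (h3.mul_right (h3.mul_right h2))).of_isCoprime_of_dvd_right h4
  have heps : MP P ((eps n t d : Om) - 1) := by
    rcases (C.tEch n t).1 d hdo hD with h2 | h2
    · rw [h2]
      push_cast
      rw [sub_self]
      exact DI.MP.zero
    · rw [h2]
      push_cast
      have e : (-1 - 1 : Om) = -2 := by norm_num
      rw [e]
      exact h.hP.2.neg
  -- the sums
  have e1 : xw f m R χ ((a * r + b') / (c * r + d)) - xw f m R χ (b' / d) =
      ((eps n t d : Om) * (a : Om)⁻¹ * χ (sp (d : OO n t))) *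
        (∑ b ∈ R, Fb f m χ r (sp (a : OO n t) * b) - ∑ b ∈ R, Fb f m χ 0 (sp (a : OO n t) * b)) := by
    unfold xw
    rw [← Finset.sum_sub_distrib, ← Finset.sum_sub_distrib, Finset.mul_sum]
    refine Finset.sum_congr rfl fun b hb => ?_
    have hbF := h.hR b hb
    have h2 := (h.E_g hG hb4 ⟨c1, hc1⟩ hbF hr).2
    have h3 := r_rO_trans h.R1 r_G15_top (h.g15 hbF) (V1_G15_mul (h.g15 hA) (h.g15 hbF))
    have h4 : χ b = χ (sp (d : OO n t)) * χ (sp (a : OO n t) * b) := by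
      rw [h.hχ.mul]
      linear_combination (-χ b) * h1
    unfold Fb
    rw [h2, h3]
    have e3 : ∀ X : Om, χ b * X = χ (sp (d : OO n t)) * χ (sp (a : OO n t) * b) * X := by
      intro X
      rw [← h4]
    rw [mul_assoc (χ b), mul_assoc (χ b), e3, e3]
    field_simp
    ring
  rw [e1]
  have hz : (0 : ℚ).den.Coprime M := by simp
  have s1 := h.sum hr hA
  have s2 := h.sum hz hA
  have hS : MP P ((∑ b ∈ R, Fb f m χ r (sp (a : OO n t) * b) -
      ∑ b ∈ R, Fb f m χ 0 (sp (a : OO n t) * b)) - (xw f m R χ r - xw f m R χ 0)) := by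
    have h5 := s1.sub s2
    unfold xw
    have e : ∀ x y z w : Om, x - y - (z - w) = x - z - (y - w) := fun x y z w => by ring
    rwa [e] at h5
  have hfac : MP P ((eps n t d : Om) * (a : Om)⁻¹ * χ (sp (d : OO n t)) - χ (sp (d : OO n t))) := by
    have h6 : MP P ((a : Om)⁻¹ - 1) := by
      have e : (a : Om)⁻¹ - 1 = -(((a : Om) - 1) * (a : Om)⁻¹) := by
        field_simp
        ring
      rw [e]
      exact (DI.MP.mul_right (CV_mp_int hPp h.hP.2 hao) hau.inv.1).neg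
    have h7 := CV_mp_mul hPp hau.inv.1 DI.VP.one heps h6
    have h8 := DI.MP.mul_right h7 hdu.1
    have e : ((eps n t d : Om) * (a : Om)⁻¹ - 1 * 1) * χ (sp (d : OO n t)) =
        (eps n t d : Om) * (a : Om)⁻¹ * χ (sp (d : OO n t)) - χ (sp (d : OO n t)) := by ring
    rwa [e] at h8
  have hv1 : VP P (∑ b ∈ R, Fb f m χ r (sp (a : OO n t) * b) -
      ∑ b ∈ R, Fb f m χ 0 (sp (a : OO n t) * b)) := by
    refine DI.VP.sub (DI.VP.sum _ _ fun b hb => h.vp hr (CV_fb_mul hA (h.hR b hb)))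
      (DI.VP.sum _ _ fun b hb => h.vp hz (CV_fb_mul hA (h.hR b hb)))
  exact CV_mp_mul hPp hv1 hdu.1 hfac hS

end Pool.Agent.DR
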